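import Mathlib

open Set Topology Filter

namespace Pool.Agent.Helper461.HC

noncomputable def rr (m : ℝ) : ℝ := Real.sqrt (m ^ 2 + 9 / 25)
noncomputable def NN (m : ℝ) : ℝ := 7 * (m ^ 2 + 9 / 25) - 5 * m * rr m
noncomputable def DD (w g m : ℝ) : ℝ := (25 + 20 * g) * rr m - 15 * m - 12 * w
noncomputable def AA (s w g m : ℝ) : ℝ :=
  -(25 * rr m - 20 * m) / 9 + s * (125 / 9) * (NN m / DD w g m)

noncomputable def e0 (m : ℝ) : ℝ := m / rr m
noncomputable def e1 (m : ℝ) : ℝ := (1 * rr m - m * e0 m) / rr m ^ 2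
noncomputable def N1 (m : ℝ) : ℝ := 14 * m - (5 * rr m + 5 * m * e0 m)
noncomputable def D1 (g m : ℝ) : ℝ := (25 + 20 * g) * e0 m - 15
noncomputable def A1 (s w g m : ℝ) : ℝ :=
  -(25 * e0 m - 20) / 9 + s * (125 / 9) * ((N1 m * DD w g m - NN m * D1 g m) / DD w g m ^ 2)
noncomputable def N2 (m : ℝ) : ℝ := 14 - (5 * e0 m + (5 * e0 m + 5 * m * e1 m))
noncomputable def A2 (s w g m : ℝ) : ℝ :=
  -(25 * e1 m) / 9 + s * (125 / 9) *
    (((N2 m * DD w g m + N1 m * D1 g m - (N1 m * D1 g m + NN m * ((25 + 20 * g) * e1 m))) *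
      DD w g m ^ 2 - (N1 m * DD w g m - NN m * D1 g m) * (2 * DD w g m * D1 g m)) /
      (DD w g m ^ 2) ^ 2)

theorem rr_pos (m : ℝ) : 0 < rr m := Real.sqrt_pos.mpr (by positivity)

theorem rr_sq (m : ℝ) : rr m ^ 2 = m ^ 2 + 9 / 25 := Real.sq_sqrt (by positivity)

theorem hasDerivAt_rr (m : ℝ) : HasDerivAt rr (e0 m) m := by
  have h1 : HasDerivAt (fun x : ℝ => x ^ 2 + 9 / 25) (2 * m) m := by
    have := (hasDerivAt_pow 2 m).add_const (9 / 25 : ℝ)
    simpa using this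
  have h2 := h1.sqrt (by positivity : m ^ 2 + 9 / 25 ≠ 0)
  have h3 : 2 * m / (2 * Real.sqrt (m ^ 2 + 9 / 25)) = e0 m := by
    unfold e0 rr
    rw [mul_div_mul_left _ _ (two_ne_zero)]
  rw [h3] at h2
  exact h2

theorem hasDerivAt_e0 (m : ℝ) : HasDerivAt e0 (e1 m) m := by
  have := (hasDerivAt_id m).div (hasDerivAt_rr m) (rr_pos m).ne'
  exact this

theorem hasDerivAt_NN (m : ℝ) : HasDerivAt NN (N1 m) m := by
  have h1 : HasDerivAt (fun x : ℝ => 7 * (x ^ 2 + 9 / 25)) (14 * m) m := by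
    have := ((hasDerivAt_pow 2 m).add_const (9 / 25 : ℝ)).const_mul 7
    exact this.congr_deriv (by norm_num; ring)
  have h2 : HasDerivAt (fun x : ℝ => 5 * x * rr x) (5 * rr m + 5 * m * e0 m) m := by
    have h := ((hasDerivAt_id m).const_mul 5).mul (hasDerivAt_rr m)
    exact h.congr_deriv (by simp)
  exact h1.sub h2

theorem hasDerivAt_DD (w g m : ℝ) : HasDerivAt (DD w g) (D1 g m) m := by
  have h1 := (hasDerivAt_rr m).const_mul (25 + 20 * g)
  have h2 : HasDerivAt (fun x : ℝ => 15 * x) 15 m := by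
    simpa using (hasDerivAt_id m).const_mul 15
  exact (h1.sub h2).sub_const (12 * w)

theorem hasDerivAt_AA (s w g m : ℝ) (h : DD w g m ≠ 0) : HasDerivAt (AA s w g) (A1 s w g m) m := by
  have h1 : HasDerivAt (fun x : ℝ => -(25 * rr x - 20 * x) / 9) (-(25 * e0 m - 20) / 9) m := by
    have h2 : HasDerivAt (fun x : ℝ => 20 * x) 20 m := by
      simpa using (hasDerivAt_id m).const_mul 20
    exact (((hasDerivAt_rr m).const_mul 25).sub h2).neg.div_const 9
  have h3 := ((hasDerivAt_NN m).div (hasDerivAt_DD w g m) h).const_mul (s * (125 / 9))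
  exact h1.add h3

theorem hasDerivAt_A1 (s w g m : ℝ) (h : DD w g m ≠ 0) : HasDerivAt (A1 s w g) (A2 s w g m) m := by
  have h1 : HasDerivAt (fun x : ℝ => -(25 * e0 x - 20) / 9) (-(25 * e1 m) / 9) m :=
    (((hasDerivAt_e0 m).const_mul 25).sub_const 20).neg.div_const 9
  have hN1 : HasDerivAt N1 (N2 m) m := by
    have h14 : HasDerivAt (fun x : ℝ => 14 * x) 14 m := by
      simpa using (hasDerivAt_id m).const_mul 14
    have h5 : HasDerivAt (fun x : ℝ => 5 * x * e0 x) (5 * e0 m + 5 * m * e1 m) m := by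
      have h := ((hasDerivAt_id m).const_mul 5).mul (hasDerivAt_e0 m)
      exact h.congr_deriv (by simp)
    exact h14.sub (((hasDerivAt_rr m).const_mul 5).add h5)
  have hD1 : HasDerivAt (D1 g) ((25 + 20 * g) * e1 m) m :=
    ((hasDerivAt_e0 m).const_mul (25 + 20 * g)).sub_const 15
  have hnum := (hN1.mul (hasDerivAt_DD w g m)).sub ((hasDerivAt_NN m).mul hD1)
  have hden : HasDerivAt (fun x => DD w g x ^ 2) (2 * DD w g m * D1 g m) m := by
    have := (hasDerivAt_DD w g m).pow 2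
    exact this.congr_deriv (by simp)
  have hq := (hnum.div hden (pow_ne_zero 2 h)).const_mul (s * (125 / 9))
  exact h1.add hq

theorem rr_base : rr (-1 / 4) = 13 / 20 := by
  unfold rr
  rw [show ((-1 / 4 : ℝ) ^ 2 + 9 / 25) = (13 / 20) ^ 2 by norm_num]
  exact Real.sqrt_sq (by norm_num)

theorem A2_base : 0 < A2 (8 / 5) (3 / 5) (4 / 5) (-1 / 4) := by
  unfold A2 N2 N1 NN D1 DD e1 e0
  rw [rr_base]
  norm_num

theorem AA_base : AA (8 / 5) (3 / 5) (4 / 5) (-1 / 4) = 5 / 4 := by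
  unfold AA NN DD
  rw [rr_base]
  norm_num

theorem DD_base : DD (3 / 5) (4 / 5) (-1 / 4) = 116 / 5 := by
  unfold DD
  rw [rr_base]
  norm_num

theorem A1_base : A1 (8 / 5) (3 / 5) (4 / 5) (-1 / 4) = A1 (8 / 5) (3 / 5) (4 / 5) (-1 / 4) := rfl

theorem A1_base_lt : |A1 (8 / 5) (3 / 5) (4 / 5) (-1 / 4)| < 2 := by
  unfold A1 N1 NN D1 DD e0
  rw [rr_base, abs_lt]
  constructor <;> norm_num

/-- the key neighbourhood -/
theorem exists_box : ∃ ρ : ℝ, 0 < ρ ∧ ∀ s w g m : ℝ, |s - 8 / 5| < ρ → |w - 3 / 5| < ρ →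
    |g - 4 / 5| < ρ → |m + 1 / 4| < ρ →
      0 < DD w g m ∧ 0 < A2 s w g m ∧ 1 < AA s w g m ∧ |A1 s w g m| < 2 := by
  have hcr : Continuous rr := by unfold rr; fun_prop
  have hce0 : Continuous e0 := hcr |> fun h => continuous_id.div h (fun m => (rr_pos m).ne')
  have hce1 : Continuous e1 := by
    unfold e1
    exact Continuous.div (by fun_prop) (by fun_prop) (fun m => pow_ne_zero 2 (rr_pos m).ne')
  have hN : Continuous NN := by unfold NN; fun_prop
  have hN1 : Continuous N1 := by unfold N1; fun_prop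
  have hN2 : Continuous N2 := by unfold N2; fun_prop
  let z0 : ℝ × ℝ × ℝ × ℝ := (8 / 5, 3 / 5, 4 / 5, -1 / 4)
  have cD : Continuous (fun z : ℝ × ℝ × ℝ × ℝ => DD z.2.1 z.2.2.1 z.2.2.2) := by
    unfold DD; fun_prop
  have cD1 : Continuous (fun z : ℝ × ℝ × ℝ × ℝ => D1 z.2.2.1 z.2.2.2) := by
    unfold D1; fun_prop
  have hD0 : DD z0.2.1 z0.2.2.1 z0.2.2.2 ≠ 0 := by
    show DD (3/5) (4/5) (-1/4) ≠ 0
    rw [DD_base]; norm_num
  have cA : ContinuousAt (fun z : ℝ × ℝ × ℝ × ℝ => AA z.1 z.2.1 z.2.2.1 z.2.2.2) z0 := by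
    unfold AA
    apply ContinuousAt.add
    · fun_prop
    · apply ContinuousAt.mul (by fun_prop)
      exact ContinuousAt.div (by fun_prop) cD.continuousAt hD0
  have cA1 : ContinuousAt (fun z : ℝ × ℝ × ℝ × ℝ => A1 z.1 z.2.1 z.2.2.1 z.2.2.2) z0 := by
    unfold A1
    apply ContinuousAt.add
    · fun_prop
    · apply ContinuousAt.mul (by fun_prop)
      exact ContinuousAt.div (by fun_prop) (cD.pow 2).continuousAt (pow_ne_zero 2 hD0)
  have cA2 : ContinuousAt (fun z : ℝ × ℝ × ℝ × ℝ => A2 z.1 z.2.1 z.2.2.1 z.2.2.2) z0 := by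
    unfold A2
    apply ContinuousAt.add
    · fun_prop
    · apply ContinuousAt.mul (by fun_prop)
      exact ContinuousAt.div (by fun_prop) ((cD.pow 2).pow 2).continuousAt
        (pow_ne_zero 2 (pow_ne_zero 2 hD0))
  have E1 : ∀ᶠ z in 𝓝 z0, 0 < DD z.2.1 z.2.2.1 z.2.2.2 := by
    apply cD.continuousAt.eventually_const_lt
    show 0 < DD (3/5) (4/5) (-1/4)
    rw [DD_base]; norm_num
  have E2 : ∀ᶠ z in 𝓝 z0, 0 < A2 z.1 z.2.1 z.2.2.1 z.2.2.2 :=
    cA2.eventually_const_lt A2_base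
  have E3 : ∀ᶠ z in 𝓝 z0, 1 < AA z.1 z.2.1 z.2.2.1 z.2.2.2 := by
    apply cA.eventually_const_lt
    show 1 < AA (8/5) (3/5) (4/5) (-1/4)
    rw [AA_base]; norm_num
  have E4 : ∀ᶠ z in 𝓝 z0, |A1 z.1 z.2.1 z.2.2.1 z.2.2.2| < 2 :=
    cA1.abs.eventually_lt_const A1_base_lt
  obtain ⟨ρ, hρ, hball⟩ := Metric.eventually_nhds_iff.mp (E1.and (E2.and (E3.and E4)))
  refine ⟨ρ, hρ, fun s w g m h1 h2 h3 h4 => ?_⟩
  have hd : dist (s, w, g, m) z0 < ρ := by
    rw [Prod.dist_eq, Prod.dist_eq, Prod.dist_eq]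
    simp only [Real.dist_eq, z0]
    refine max_lt h1 (max_lt h2 (max_lt h3 ?_))
    rwa [show m - -1 / 4 = m + 1 / 4 by ring]
  obtain ⟨a, b, c, d⟩ := hball hd
  exact ⟨a, b, c, d⟩

theorem A_tangent {s w g a b : ℝ} (hD : ∀ m ∈ Icc a b, 0 < DD w g m)
    (h2 : ∀ m ∈ Icc a b, 0 < A2 s w g m) {m m' : ℝ} (hm : m ∈ Icc a b) (hm' : m' ∈ Icc a b)
    (hne : m' ≠ m) : AA s w g m + A1 s w g m * (m' - m) < AA s w g m' := by
  have hA1mono : StrictMonoOn (A1 s w g) (Icc a b) := by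
    apply strictMonoOn_of_hasDerivWithinAt_pos (convex_Icc a b) (f' := A2 s w g)
    · intro x hx
      exact (hasDerivAt_A1 s w g x (hD x hx).ne').continuousAt.continuousWithinAt
    · intro x hx
      have hx' := interior_subset hx
      exact (hasDerivAt_A1 s w g x (hD x hx').ne').hasDerivWithinAt
    · intro x hx
      exact h2 x (interior_subset hx)
  rcases lt_or_gt_of_ne hne with h | h
  · -- m' < m
    have hsub : Icc m' m ⊆ Icc a b := Icc_subset_Icc hm'.1 hm.2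
    obtain ⟨ξ, hξ, he⟩ := exists_hasDerivAt_eq_slope (AA s w g) (A1 s w g) h
      (fun x hx => (hasDerivAt_AA s w g x (hD x (hsub hx)).ne').continuousAt.continuousWithinAt)
      (fun x hx => hasDerivAt_AA s w g x (hD x (hsub (Ioo_subset_Icc_self hx))).ne')
    have h3 : A1 s w g ξ < A1 s w g m := hA1mono (hsub (Ioo_subset_Icc_self hξ)) hm hξ.2
    rw [he, div_lt_iff₀ (by linarith)] at h3
    nlinarith
  · have hsub : Icc m m' ⊆ Icc a b := Icc_subset_Icc hm.1 hm'.2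
    obtain ⟨ξ, hξ, he⟩ := exists_hasDerivAt_eq_slope (AA s w g) (A1 s w g) h
      (fun x hx => (hasDerivAt_AA s w g x (hD x (hsub hx)).ne').continuousAt.continuousWithinAt)
      (fun x hx => hasDerivAt_AA s w g x (hD x (hsub (Ioo_subset_Icc_self hx))).ne')
    have h3 : A1 s w g m < A1 s w g ξ := hA1mono hm (hsub (Ioo_subset_Icc_self hξ)) hξ.1
    rw [he, lt_div_iff₀ (by linarith)] at h3
    nlinarith

end Pool.Agent.Helper461.HC
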