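import Mathlib

namespace Pool.Agent.Helper461.HC

theorem al_pos {D y : ℝ} (h : 5 - y ≤ D * (5 - 7 * y)) (hD : 0 < D) (hy : 1 / 2 ≤ y)
    (hy2 : y < 5 / 7) : 0 < 9 * D - 5 * (5 - y) := by nlinarith

theorem al_le1 {a b : ℝ} (h : a ^ 2 + b ^ 2 ≤ 1) : a ≤ 1 := by nlinarith [sq_nonneg b]

theorem al_abs1 {a b : ℝ} (h : a ^ 2 + b ^ 2 ≤ 1) : |a| ≤ 1 := by
  rw [← sq_le_one_iff_abs_le_one]; nlinarith [sq_nonneg b]

theorem al_81 {a b m : ℝ} (ha : 0 < a) (hn : a ^ 2 + b ^ 2 ≤ 1) (hb : b = 4 / 5 + m * a)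
    (hm : -26 / 100 ≤ m) : a ≤ 81 / 100 := by
  by_contra hcon; push Not at hcon
  have hale : a ≤ 1 := al_le1 hn
  have hbl : 4 / 5 - 26 / 100 * a ≤ b := by rw [hb]; nlinarith
  nlinarith

theorem al_g0 {v g : ℝ} (hg : g ^ 2 = 1 - v ^ 2) (hg0 : 0 ≤ g) (h1 : 59 / 100 ≤ v)
    (h2 : v ≤ 61 / 100) : 79 / 100 ≤ g ∧ g ≤ 8075 / 10000 := by
  constructor <;> (by_contra hh; push Not at hh; nlinarith)

theorem al_T {v a b G m : ℝ} (ha : 0 < a) (ha1 : a ≤ 81 / 100) (hb : b = 4 / 5 + m * a)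
    (hm : m ≤ -24 / 100) (hv : v ≤ 61 / 100) (hG1 : 79 / 100 ≤ G) (hG2 : G ≤ 808 / 1000) :
    v * a + G * b ≤ 1 := by
  have hb2 : b ≤ 4 / 5 - 24 / 100 * a := by rw [hb]; nlinarith
  have hb3 : G * b ≤ G * (4 / 5 - 24 / 100 * a) := mul_le_mul_of_nonneg_left hb2 (by linarith)
  nlinarith

theorem al_S {a P Q : ℝ} (ha : 0 < a) (h1 : P ≤ Q) (h2 : a * Q ≤ 1) : a * P ≤ 1 := by nlinarith

theorem al_b57 {a b : ℝ} (hab : a ^ 2 + b ^ 2 = 1) (hb : b < 5 / 7) (hb0 : 0 ≤ b) :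
    1 / 20 ≤ |a - 3 / 5| := by
  have : 24 / 49 ≤ a ^ 2 := by nlinarith
  rw [le_abs]
  rcases lt_or_ge a 0 with h | h
  · right; nlinarith
  · left; nlinarith

theorem al_neg_b {v a b G : ℝ} (hv : -1 ≤ v) (hv' : v ≤ 1) (ha : |a| ≤ 1) (hG : 0 ≤ G) (hb : b < 0) :
    v * a + G * b ≤ 1 := by
  have h2 : |v * a| ≤ 1 := by
    rw [abs_mul]
    have : |v| ≤ 1 := abs_le.mpr ⟨hv, hv'⟩
    nlinarith [abs_nonneg v, abs_nonneg a]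
  rw [abs_le] at h2
  nlinarith [h2.2]

theorem al_mul_neg {t c : ℝ} (ht : 0 < t) (hc : c < 0) : t * c < 0 := by nlinarith

theorem al_slope1 {t c k x : ℝ} (ht : 0 < t) (h : c < k * x) : t * c < k * (t * x) := by nlinarith

theorem al_slope2 {t c k x : ℝ} (ht : 0 < t) (h : k * x < c) : k * (t * x) < t * c := by nlinarith

theorem al_circ {a b : ℝ} (h : a ^ 2 + b ^ 2 = 1) : 1 - a * a - b * b = 0 := by linarith

theorem al_circ' {x y : ℝ} (hq : 9 * x ^ 2 + 16 * y ^ 2 - 40 * y + 16 = 0) (hd : 0 < 16 - 5 * y) :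
    (-(9 * x) / (16 - 5 * y)) ^ 2 + ((20 - 13 * y) / (16 - 5 * y)) ^ 2 = 1 := by
  rw [div_pow, div_pow, ← add_div, div_eq_one_iff_eq (by positivity)]
  linarith

theorem al_neg_slope {μ a c : ℝ} (hμ1 : μ ≤ 1 / 100) (ha : 0 ≤ a) (hc : 0 < c) :
    (-1 / 4 + μ) * a < c := by nlinarith

theorem al_sq {η c : ℝ} (hη : 0 < η) (h : η ≤ c) : η ^ 2 ≤ c ^ 2 := by nlinarith

theorem al_window {η x v : ℝ} (hη : 0 < η) (hx : 2 * η ≤ |x - 3 / 5|) (h1 : 3 / 5 - η ≤ v)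
    (h2 : v ≤ 3 / 5 + η) : η ^ 2 ≤ (x - v) ^ 2 := by
  rcases le_abs.mp hx with h | h
  · exact al_sq hη (by linarith)
  · have := al_sq hη (c := v - x) (by linarith)
    nlinarith

theorem al_eta4 {η : ℝ} (hη : 0 < η) (hη1 : η ≤ 1 / 100) : η ^ 4 ≤ η ^ 2 := by
  have : η ^ 2 ≤ 1 := pow_le_one₀ hη.le (by linarith)
  nlinarith [sq_nonneg η]

theorem al_quad {x y : ℝ} (hq : 9 * x ^ 2 + 16 * y ^ 2 - 40 * y + 16 = 0) :
    ((5 - 4 * y) / 3) ^ 2 = 1 - x ^ 2 := by linarith [hq]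

theorem al_close {w a b g d : ℝ} (h1 : w * a + (g + d) * b = 1) (hg : g ^ 2 = 1 - w ^ 2)
    (hn : a ^ 2 + b ^ 2 ≤ 1) (hd : 0 ≤ d) (hb : 0 < b) (hd2 : d ≤ 1 / 100000) :
    -(1 / 100) ≤ a - w ∧ -(1 / 100) ≤ b - g := by
  have hb1 : b ≤ 1 := by nlinarith [sq_nonneg a]
  have h2 : (a - w) ^ 2 + (b - g) ^ 2 ≤ 2 * d := by nlinarith
  constructor
  · have h3 : (a - w) ^ 2 ≤ (1 / 100) ^ 2 := by nlinarith [sq_nonneg (b - g)]
    exact (abs_le_of_sq_le_sq' h3 (by norm_num)).1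
  · have h4 : (b - g) ^ 2 ≤ (1 / 100) ^ 2 := by nlinarith [sq_nonneg (a - w)]
    exact (abs_le_of_sq_le_sq' h4 (by norm_num)).1

theorem al_outw {w a b g μ : ℝ} (h5 : -(1 / 100) ≤ a - w) (h6 : -(1 / 100) ≤ b - g)
    (hw1 : 59 / 100 ≤ w) (hg1 : 79 / 100 ≤ g) (hμ1 : μ ≤ 1 / 100) :
    (-1 / 4 + μ) * a < b - 4 / 5 := by nlinarith

theorem al_outx {x h μ : ℝ} (hneg : 0 ≤ x) (hs : h ^ 2 = 1 - x ^ 2) (hlow : 5 / 7 < h)
    (hμ1 : μ ≤ 1 / 100) : (-1 / 4 + μ) * x < h - 4 / 5 := by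
  by_cases hx3 : x ≤ 3 / 5
  · have : 4 / 5 ≤ h := by
      by_contra hcon; push Not at hcon
      nlinarith
    rcases eq_or_lt_of_le hneg with h0 | h0
    · rw [← h0] at hs ⊢
      have : h = 1 := by nlinarith
      rw [this]; norm_num
    · nlinarith
  · push Not at hx3
    nlinarith

end Pool.Agent.Helper461.HC
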