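import Mathlib

/-!
Hilbert planes, their distance, geodesic lines and metric conics.
-/

namespace Pool.Agent.Helper461.HC

/-- The Euclidean plane. -/
abbrev Plane : Type := EuclideanSpace ℝ (Fin 2)

/-- The point at which the ray from `X` through `Y` leaves the bounded open convex set `Ω`:
the supremum runs over all parameters `t` for which `X + t (Y - X)` lies in `Ω`. -/
noncomputable def exitPoint (Ω : Set Plane) (X Y : Plane) : Plane :=
  X + (sSup {t : ℝ | X + t • (Y - X) ∈ Ω}) • (Y - X)

/-- The Hilbert distance `1/2 log (|XJ| |YI| / (|XI| |YJ|))`, where `J` is the end of the chord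
beyond `Y` and `I` the end of the chord beyond `X`. (For `X = Y` the value is `0`.) -/
noncomputable def hdist (Ω : Set Plane) (X Y : Plane) : ℝ :=
  (1 / 2) * Real.log
    ((dist X (exitPoint Ω X Y) * dist Y (exitPoint Ω Y X)) /
      (dist X (exitPoint Ω Y X) * dist Y (exitPoint Ω X Y)))

/-- A Hilbert plane: a nonempty bounded open convex set whose closure is strictly convex. -/
structure IsHilbertPlane (Ω : Set Plane) : Prop where
  nonempty : Ω.Nonempty
  isOpen : IsOpen Ω
  bounded : Bornology.IsBounded Ω
  convex : Convex ℝ Ω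
  strict : StrictConvex ℝ (closure Ω)

/-- A geodesic line of `Ω`: the part inside `Ω` of the straight line through two points of `Ω`. -/
def IsGeodesicLine (Ω L : Set Plane) : Prop :=
  ∃ A ∈ Ω, ∃ B ∈ Ω, A ≠ B ∧ L = Ω ∩ {P | ∃ t : ℝ, P = A + t • (B - A)}

/-- The distance from a point to a line, the infimum of the distances to its points. -/
noncomputable def lineDist (Ω L : Set Plane) (X : Plane) : ℝ :=
  sInf ((fun Y => hdist Ω X Y) '' L)

/-- The metric conic with focus `F`, leading line `L` and parameter `ρ`. -/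
def conic (Ω : Set Plane) (ρ : ℝ) (F : Plane) (L : Set Plane) : Set Plane :=
  {X | X ∈ Ω ∧ ρ * lineDist Ω L X = lineDist Ω L F * hdist Ω F X}

/-- The parabolic conic: the parameter is the distance from the focus to the leading line. -/
def parabolicConic (Ω : Set Plane) (F : Plane) (L : Set Plane) : Set Plane :=
  conic Ω (lineDist Ω L F) F L

/-- `S` is the part inside `Ω` of the zero set of a polynomial of degree exactly `2`. -/
def IsQuadric (Ω S : Set Plane) : Prop :=
  ∃ a b c d e g : ℝ, (a ≠ 0 ∨ b ≠ 0 ∨ c ≠ 0) ∧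
    S = {X | X ∈ Ω ∧ a * X 0 ^ 2 + b * X 0 * X 1 + c * X 1 ^ 2 + d * X 0 + e * X 1 + g = 0}

/-- `Ω` is the interior of an ellipse: the negativity set of a quadratic polynomial whose
quadratic part is positive definite. -/
def IsEllipseInterior (Ω : Set Plane) : Prop :=
  ∃ a b c d e g : ℝ, 0 < a ∧ b ^ 2 < 4 * a * c ∧
    Ω = {X | a * X 0 ^ 2 + b * X 0 * X 1 + c * X 1 ^ 2 + d * X 0 + e * X 1 + g < 0}

end Pool.Agent.Helper461.HC
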