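import Mathlib
import Pool.Agent.Helper461.HC.Defs

open Set Topology

namespace Pool.Agent.Helper461.HC

structure IsAff (u : Plane → ℝ) : Prop where
  cont : Continuous u
  aff : ∀ (X Y : Plane) (t : ℝ), u (X + t • (Y - X)) = u X + t * (u Y - u X)

noncomputable def tau (Ω : Set Plane) (X Y : Plane) : ℝ := sSup {t : ℝ | X + t • (Y - X) ∈ Ω}

noncomputable def funk (Ω : Set Plane) (X Y : Plane) : ℝ :=
  Real.log (tau Ω X Y / (tau Ω X Y - 1))

variable {Ω : Set Plane}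

theorem tau_self {X : Plane} (hX : X ∈ Ω) : tau Ω X X = 0 := by
  unfold tau
  have : {t : ℝ | X + t • (X - X) ∈ Ω} = Set.univ := by
    ext t; simp [hX]
  rw [this, Real.sSup_univ]

theorem funk_self {X : Plane} (hX : X ∈ Ω) : funk Ω X X = 0 := by
  unfold funk
  rw [tau_self hX]; simp

theorem bddAbove_exit (hb : Bornology.IsBounded Ω) {X Y : Plane} (hXY : X ≠ Y) :
    BddAbove {t : ℝ | X + t • (Y - X) ∈ Ω} := by
  obtain ⟨R, hR⟩ := hb.subset_closedBall X
  have hpos : 0 < ‖Y - X‖ := norm_pos_iff.mpr (sub_ne_zero.mpr hXY.symm)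
  refine ⟨R / ‖Y - X‖, fun t ht => ?_⟩
  have h1 := hR ht
  rw [Metric.mem_closedBall, dist_eq_norm, add_sub_cancel_left, norm_smul, Real.norm_eq_abs] at h1
  rw [le_div_iff₀ hpos]
  exact le_trans (mul_le_mul_of_nonneg_right (le_abs_self t) hpos.le) h1

theorem tau_spec (hΩ : IsHilbertPlane Ω) {X Y : Plane} (_hX : X ∈ Ω) (hY : Y ∈ Ω) (hXY : X ≠ Y) :
    1 < tau Ω X Y ∧ X + tau Ω X Y • (Y - X) ∈ closure Ω ∧ X + tau Ω X Y • (Y - X) ∉ Ω := by
  set S : Set ℝ := {t : ℝ | X + t • (Y - X) ∈ Ω} with hS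
  have hcont : Continuous (fun t : ℝ => X + t • (Y - X)) := by fun_prop
  have hopen : IsOpen S := hΩ.isOpen.preimage hcont
  have hbdd : BddAbove S := bddAbove_exit hΩ.bounded hXY
  have h1 : (1 : ℝ) ∈ S := by
    show X + (1:ℝ) • (Y - X) ∈ Ω
    rw [one_smul, add_sub_cancel]; exact hY
  have key : ∀ t ∈ S, t < sSup S := by
    intro t ht
    obtain ⟨ε, hε, hball⟩ := Metric.isOpen_iff.mp hopen t ht
    have : t + ε / 2 ∈ S := hball (by
      rw [Metric.mem_ball, Real.dist_eq, add_sub_cancel_left, abs_of_pos (by positivity)]; linarith)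
    have := le_csSup hbdd this
    linarith
  refine ⟨key 1 h1, ?_, ?_⟩
  · have h2 : sSup S ∈ closure S := csSup_mem_closure ⟨1, h1⟩ hbdd
    have h3 : (fun t : ℝ => X + t • (Y - X)) (sSup S) ∈ closure ((fun t : ℝ => X + t • (Y - X)) '' S) :=
      image_closure_subset_closure_image hcont (mem_image_of_mem _ h2)
    refine closure_mono ?_ h3
    rintro _ ⟨t, ht, rfl⟩
    exact ht
  · intro h
    exact lt_irrefl _ (key _ h)

theorem interior_closure_eq (hΩ : IsHilbertPlane Ω) : interior (closure Ω) = Ω := by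
  have h := hΩ.convex.interior_closure_eq_interior_of_nonempty_interior
    (by rw [hΩ.isOpen.interior_eq]; exact hΩ.nonempty)
  rw [h, hΩ.isOpen.interior_eq]

theorem nonneg_closure {u : Plane → ℝ} (hu : IsAff u) (hpos : ∀ V ∈ Ω, 0 < u V) :
    ∀ V ∈ closure Ω, 0 ≤ u V := by
  intro V hV
  have : closure Ω ⊆ {V | 0 ≤ u V} :=
    closure_minimal (fun V hV => (hpos V hV).le) (isClosed_le continuous_const hu.cont)
  exact this hV

theorem tau_eq (hΩ : IsHilbertPlane Ω) {X Y : Plane} (hX : X ∈ Ω) {u : Plane → ℝ} (hu : IsAff u)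
    (hpos : ∀ V ∈ Ω, 0 < u V) {s : ℝ} (hs : 0 < s) (hJ : X + s • (Y - X) ∈ closure Ω)
    (hJ0 : u (X + s • (Y - X)) = 0) : tau Ω X Y = s := by
  have haff := hu.aff X Y
  rw [haff] at hJ0
  have hXpos := hpos X hX
  have hlub : IsLUB {t : ℝ | X + t • (Y - X) ∈ Ω} s := by
    constructor
    · intro t ht
      by_contra hlt
      push Not at hlt
      have h1 := hpos _ ht
      rw [haff] at h1
      nlinarith
    · intro b hb
      by_contra hlt
      push Not at hlt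
      -- points below s belong
      have hmem : ∀ t, 0 ≤ t → t < s → X + t • (Y - X) ∈ Ω := by
        intro t ht hts
        rcases eq_or_lt_of_le ht with h0 | h0
        · rw [← h0]; simpa using hX
        · have hseg := hΩ.convex.openSegment_interior_closure_subset_interior
            (x := X) (y := X + s • (Y - X)) (by rwa [hΩ.isOpen.interior_eq]) hJ
          rw [hΩ.isOpen.interior_eq] at hseg
          apply hseg
          refine ⟨1 - t / s, t / s, ?_, by positivity, by ring, ?_⟩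
          · have : t / s < 1 := by rw [div_lt_one hs]; exact hts
            linarith
          · rw [smul_add, ← add_assoc, ← add_smul]
            rw [smul_smul, div_mul_cancel₀ t hs.ne']
            simp
      have h0 : (0:ℝ) ≤ b := hb (hmem 0 le_rfl hs)
      have := hb (hmem ((b + s) / 2) (by linarith) (by linarith))
      linarith
  exact hlub.csSup_eq ⟨0, by simpa using hX⟩

theorem funk_ge (hΩ : IsHilbertPlane Ω) {X Y : Plane} (hX : X ∈ Ω) (hY : Y ∈ Ω) {u : Plane → ℝ}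
    (hu : IsAff u) (hpos : ∀ V ∈ Ω, 0 < u V) : Real.log (u X / u Y) ≤ funk Ω X Y := by
  by_cases hXY : X = Y
  · subst hXY
    rw [funk_self hX, div_self (hpos X hX).ne', Real.log_one]
  · obtain ⟨h1, h2, _⟩ := tau_spec hΩ hX hY hXY
    have h3 := nonneg_closure hu hpos _ h2
    rw [hu.aff] at h3
    have hXp := hpos X hX
    have hYp := hpos Y hY
    unfold funk
    apply Real.log_le_log (by positivity)
    rw [div_le_div_iff₀ hYp (by linarith)]
    nlinarith

theorem exists_support (hΩ : IsHilbertPlane Ω) {J : Plane} (hJ : J ∉ Ω) :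
    ∃ u : Plane → ℝ, IsAff u ∧ (∀ V ∈ Ω, 0 < u V) ∧ u J = 0 := by
  obtain ⟨f, hf⟩ := geometric_hahn_banach_open_point hΩ.convex hΩ.isOpen hJ
  refine ⟨fun V => f J - f V, ⟨by fun_prop, ?_⟩, fun V hV => by have := hf V hV; simpa using this, by simp⟩
  intro X Y t
  simp only [map_add, map_smul, map_sub, smul_eq_mul]
  ring

theorem funk_of_support (hΩ : IsHilbertPlane Ω) {X Y : Plane} (hX : X ∈ Ω) (hY : Y ∈ Ω)
    {u : Plane → ℝ} (hu : IsAff u)
    (hpos : ∀ V ∈ Ω, 0 < u V) {s : ℝ} (hs : 0 < s) (hJ : X + s • (Y - X) ∈ closure Ω)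
    (hJ0 : u (X + s • (Y - X)) = 0) : funk Ω X Y = Real.log (u X / u Y) := by
  have ht := tau_eq hΩ hX hu hpos hs hJ hJ0
  rw [hu.aff] at hJ0
  have hXp := hpos X hX
  have hYp := hpos Y hY
  have hs1 : 1 < s := by
    by_contra hle
    push Not at hle
    nlinarith
  unfold funk
  rw [ht]
  congr 1
  rw [div_eq_div_iff (by linarith) hYp.ne']
  nlinarith

theorem funk_attained (hΩ : IsHilbertPlane Ω) {X Y : Plane} (hX : X ∈ Ω) (hY : Y ∈ Ω) :
    ∃ u : Plane → ℝ, IsAff u ∧ (∀ V ∈ Ω, 0 < u V) ∧ funk Ω X Y = Real.log (u X / u Y) ∧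
      (X ≠ Y → u (X + tau Ω X Y • (Y - X)) = 0) := by
  by_cases hXY : X = Y
  · subst hXY
    refine ⟨fun _ => 1, ⟨continuous_const, by intros; ring⟩, fun _ _ => one_pos, ?_, fun h => absurd rfl h⟩
    rw [funk_self hX]; simp
  · obtain ⟨h1, h2, h3⟩ := tau_spec hΩ hX hY hXY
    obtain ⟨u, hu, hpos, hu0⟩ := exists_support hΩ h3
    exact ⟨u, hu, hpos, funk_of_support hΩ hX hY hu hpos (by linarith) h2 hu0, fun _ => hu0⟩

theorem funk_triangle (hΩ : IsHilbertPlane Ω) {X Y Z : Plane} (hX : X ∈ Ω) (hY : Y ∈ Ω) (hZ : Z ∈ Ω) :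
    funk Ω X Z ≤ funk Ω X Y + funk Ω Y Z := by
  obtain ⟨u, hu, hpos, he, _⟩ := funk_attained hΩ hX hZ
  have h1 := funk_ge hΩ hX hY hu hpos
  have h2 := funk_ge hΩ hY hZ hu hpos
  have hXp := hpos X hX
  have hYp := hpos Y hY
  have hZp := hpos Z hZ
  rw [he, Real.log_div hXp.ne' hZp.ne']
  rw [Real.log_div hXp.ne' hYp.ne'] at h1
  rw [Real.log_div hYp.ne' hZp.ne'] at h2
  linarith

theorem funk_pos (hΩ : IsHilbertPlane Ω) {X Y : Plane} (hX : X ∈ Ω) (hY : Y ∈ Ω) (hXY : X ≠ Y) :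
    0 < funk Ω X Y := by
  obtain ⟨h1, _, _⟩ := tau_spec hΩ hX hY hXY
  unfold funk
  apply Real.log_pos
  rw [lt_div_iff₀ (by linarith)]
  linarith

theorem vanish_of_eq (hΩ : IsHilbertPlane Ω) {X Y : Plane} (hX : X ∈ Ω) (hY : Y ∈ Ω) (hXY : X ≠ Y)
    {u : Plane → ℝ} (hu : IsAff u) (hpos : ∀ V ∈ Ω, 0 < u V)
    (he : funk Ω X Y = Real.log (u X / u Y)) : u (X + tau Ω X Y • (Y - X)) = 0 := by
  obtain ⟨h1, _, _⟩ := tau_spec hΩ hX hY hXY
  have hXp := hpos X hX
  have hYp := hpos Y hY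
  unfold funk at he
  have h2 : tau Ω X Y / (tau Ω X Y - 1) = u X / u Y := by
    have q1 : 0 < tau Ω X Y / (tau Ω X Y - 1) := div_pos (by linarith) (by linarith)
    exact Real.log_injOn_pos (Set.mem_Ioi.mpr q1) (Set.mem_Ioi.mpr (div_pos hXp hYp)) he
  rw [div_eq_div_iff (by linarith) hYp.ne'] at h2
  rw [hu.aff]
  linarith

theorem unique_vanish (hΩ : IsHilbertPlane Ω) {u : Plane → ℝ} (hu : IsAff u)
    (hpos : ∀ V ∈ Ω, 0 < u V) {A B : Plane} (hA : A ∈ closure Ω) (hB : B ∈ closure Ω)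
    (hA0 : u A = 0) (hB0 : u B = 0) : A = B := by
  by_contra hAB
  have h := hΩ.strict hA hB hAB (a := 1/2) (b := 1/2) (by norm_num) (by norm_num) (by norm_num)
  rw [interior_closure_eq hΩ] at h
  have h2 := hpos _ h
  have h3 : (1/2 : ℝ) • A + (1/2 : ℝ) • B = A + (1/2 : ℝ) • (B - A) := by
    rw [smul_sub]; 
    have : A = (1/2 : ℝ) • A + (1/2 : ℝ) • A := by rw [← add_smul]; norm_num
    nth_rewrite 2 [this]
    abel
  rw [h3, hu.aff, hA0, hB0] at h2
  simp at h2

theorem funk_strict (hΩ : IsHilbertPlane Ω) {X Y Z : Plane} (hX : X ∈ Ω) (hY : Y ∈ Ω) (hZ : Z ∈ Ω)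
    (hseg : Y ∉ segment ℝ X Z) : funk Ω X Z < funk Ω X Y + funk Ω Y Z := by
  have hXY : X ≠ Y := by
    rintro rfl; exact hseg (left_mem_segment ℝ _ _)
  have hYZ : Y ≠ Z := by
    rintro rfl; exact hseg (right_mem_segment ℝ _ _)
  by_cases hXZ : X = Z
  · subst hXZ
    rw [funk_self hX]
    have h1 := funk_pos hΩ hX hY hXY
    have h2 := funk_pos hΩ hY hX hXY.symm
    linarith
  by_contra hlt
  push Not at hlt
  obtain ⟨u, hu, hpos, he, h0⟩ := funk_attained hΩ hX hZ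
  have h0 := h0 hXZ
  have h1 := funk_ge hΩ hX hY hu hpos
  have h2 := funk_ge hΩ hY hZ hu hpos
  have hXp := hpos X hX
  have hYp := hpos Y hY
  have hZp := hpos Z hZ
  rw [he, Real.log_div hXp.ne' hZp.ne'] at hlt
  have e1 : funk Ω X Y = Real.log (u X / u Y) := by
    apply le_antisymm _ h1
    rw [Real.log_div hYp.ne' hZp.ne'] at h2
    rw [Real.log_div hXp.ne' hYp.ne']
    linarith
  have e2 : funk Ω Y Z = Real.log (u Y / u Z) := by
    apply le_antisymm _ h2
    rw [Real.log_div hXp.ne' hYp.ne'] at h1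
    rw [Real.log_div hYp.ne' hZp.ne']
    linarith
  have v1 := vanish_of_eq hΩ hX hY hXY hu hpos e1
  have v2 := vanish_of_eq hΩ hY hZ hYZ hu hpos e2
  obtain ⟨t1, c1, _⟩ := tau_spec hΩ hX hZ hXZ
  obtain ⟨t2, c2, _⟩ := tau_spec hΩ hX hY hXY
  obtain ⟨t3, c3, _⟩ := tau_spec hΩ hY hZ hYZ
  have j1 := unique_vanish hΩ hu hpos c1 c2 h0 v1
  rw [hu.aff] at h0 v1 v2
  -- order of values
  set a := tau Ω X Z
  set b := tau Ω X Y
  set c := tau Ω Y Z
  have hlt2 : a < b := by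
    -- u Z = u X (1 - 1/a), u Y = u X (1 - 1/b), u Z < u Y
    have k1 : a * (u X - u Z) = u X := by linarith
    have k2 : b * (u X - u Y) = u X := by linarith
    have k3 : c * (u Y - u Z) = u Y := by linarith
    have k4 : 0 < u Y - u Z := by
      by_contra hh; push Not at hh; nlinarith
    have k5 : 0 < u X - u Y := by
      by_contra hh; push Not at hh; nlinarith
    by_contra hh; push Not at hh
    nlinarith
  apply hseg
  have e3 : a • (Z - X) = b • (Y - X) := add_left_cancel j1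
  have e4 : Y = X + (a / b) • (Z - X) := by
    have : Y - X = (a / b) • (Z - X) := by
      rw [div_eq_inv_mul, ← smul_smul, e3, smul_smul, inv_mul_cancel₀ (by linarith), one_smul]
    rw [← this]; abel
  rw [segment_eq_image', e4]
  refine ⟨a / b, ⟨by positivity, ?_⟩, rfl⟩
  rw [div_le_one (by linarith)]
  exact hlt2.le

theorem funk_additive (hΩ : IsHilbertPlane Ω) {X Y Z : Plane} (hX : X ∈ Ω) (hY : Y ∈ Ω) (hZ : Z ∈ Ω)
    (hseg : Y ∈ segment ℝ X Z) : funk Ω X Z = funk Ω X Y + funk Ω Y Z := by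
  by_cases hXY : X = Y
  · subst hXY; rw [funk_self hX]; ring
  by_cases hYZ : Y = Z
  · subst hYZ; rw [funk_self hY]; ring
  rw [segment_eq_image'] at hseg
  obtain ⟨θ, ⟨hθ0, hθ1⟩, hθ⟩ := hseg
  simp only at hθ
  have hXZ : X ≠ Z := by
    rintro rfl; apply hXY; rw [← hθ]; simp
  have hθ0' : 0 < θ := by
    rcases eq_or_lt_of_le hθ0 with h | h
    · exfalso; apply hXY; rw [← hθ, ← h]; simp
    · exact h
  have hθ1' : θ < 1 := by
    rcases eq_or_lt_of_le hθ1 with h | h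
    · exfalso; apply hYZ; rw [← hθ, h]; simp
    · exact h
  obtain ⟨u, hu, hpos, he, h0⟩ := funk_attained hΩ hX hZ
  have h0 := h0 hXZ
  obtain ⟨t1, c1, _⟩ := tau_spec hΩ hX hZ hXZ
  set a := tau Ω X Z
  have hYX : Y - X = θ • (Z - X) := by rw [← hθ]; abel
  have hZY : Z - Y = (1 - θ) • (Z - X) := by rw [← hθ, sub_smul, one_smul]; abel
  have p1 : X + (a / θ) • (Y - X) = X + a • (Z - X) := by
    rw [hYX, smul_smul, div_mul_cancel₀ _ hθ0'.ne']
  have p2 : Y + ((a - θ) / (1 - θ)) • (Z - Y) = X + a • (Z - X) := by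
    rw [hZY, smul_smul, div_mul_cancel₀ _ (by linarith : (1:ℝ) - θ ≠ 0), ← hθ, add_assoc, ← add_smul]
    congr 2; ring
  have f1 := funk_of_support hΩ hX hY hu hpos (s := a / θ) (by positivity) (by rw [p1]; exact c1)
    (by rw [p1]; exact h0)
  have f2 := funk_of_support hΩ hY hZ hu hpos (s := (a - θ) / (1 - θ))
    (div_pos (by linarith) (by linarith)) (by rw [p2]; exact c1) (by rw [p2]; exact h0)
  have hXp := hpos X hX
  have hYp := hpos Y hY
  have hZp := hpos Z hZ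
  rw [he, f1, f2, Real.log_div hXp.ne' hYp.ne', Real.log_div hYp.ne' hZp.ne',
    Real.log_div hXp.ne' hZp.ne']
  ring

theorem hdist_eq (hΩ : IsHilbertPlane Ω) {X Y : Plane} (hX : X ∈ Ω) (hY : Y ∈ Ω) :
    hdist Ω X Y = (funk Ω X Y + funk Ω Y X) / 2 := by
  by_cases hXY : X = Y
  · subst hXY
    rw [funk_self hX]
    unfold hdist exitPoint
    simp
  · obtain ⟨t1, _, _⟩ := tau_spec hΩ hX hY hXY
    obtain ⟨t2, _, _⟩ := tau_spec hΩ hY hX (Ne.symm hXY)
    have d0 : 0 < dist X Y := dist_pos.mpr hXY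
    have e1 : exitPoint Ω X Y = X + tau Ω X Y • (Y - X) := rfl
    have e2 : exitPoint Ω Y X = Y + tau Ω Y X • (X - Y) := rfl
    have d1 : dist X (exitPoint Ω X Y) = tau Ω X Y * dist X Y := by
      rw [e1, dist_eq_norm, dist_eq_norm, sub_add_cancel_left, norm_neg, norm_smul, Real.norm_eq_abs,
        abs_of_pos (by linarith), norm_sub_rev]
    have d2 : dist Y (exitPoint Ω Y X) = tau Ω Y X * dist X Y := by
      rw [e2, dist_eq_norm, dist_eq_norm, sub_add_cancel_left, norm_neg, norm_smul, Real.norm_eq_abs,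
        abs_of_pos (by linarith)]
    have d3 : dist X (exitPoint Ω Y X) = (tau Ω Y X - 1) * dist X Y := by
      have : X - (Y + tau Ω Y X • (X - Y)) = (1 - tau Ω Y X) • (X - Y) := by
        rw [sub_smul, one_smul]; abel
      rw [e2, dist_eq_norm, dist_eq_norm, this, norm_smul, Real.norm_eq_abs,
        abs_of_neg (by linarith), neg_sub]
    have d4 : dist Y (exitPoint Ω X Y) = (tau Ω X Y - 1) * dist X Y := by
      have : Y - (X + tau Ω X Y • (Y - X)) = (1 - tau Ω X Y) • (Y - X) := by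
        rw [sub_smul, one_smul]; abel
      rw [e1, dist_eq_norm, dist_eq_norm, this, norm_smul, Real.norm_eq_abs,
        abs_of_neg (by linarith), neg_sub, norm_sub_rev]
    unfold hdist funk
    rw [d1, d2, d3, d4, ← Real.log_mul, mul_comm (tau Ω X Y - 1) (dist X Y)]
    · rw [show (tau Ω X Y * dist X Y * (tau Ω Y X * dist X Y) /
          ((tau Ω Y X - 1) * dist X Y * (dist X Y * (tau Ω X Y - 1)))) =
          tau Ω X Y / (tau Ω X Y - 1) * (tau Ω Y X / (tau Ω Y X - 1)) by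
        have h3 : tau Ω X Y - 1 ≠ 0 := by linarith
        have h4 : tau Ω Y X - 1 ≠ 0 := by linarith
        field_simp]
      ring
    · exact (div_pos (by linarith) (by linarith)).ne'
    · exact (div_pos (by linarith) (by linarith)).ne'

theorem hdist_triangle (hΩ : IsHilbertPlane Ω) {X Y Z : Plane} (hX : X ∈ Ω) (hY : Y ∈ Ω)
    (hZ : Z ∈ Ω) : hdist Ω X Z ≤ hdist Ω X Y + hdist Ω Y Z := by
  rw [hdist_eq hΩ hX hZ, hdist_eq hΩ hX hY, hdist_eq hΩ hY hZ]
  have h1 := funk_triangle hΩ hX hY hZ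
  have h2 := funk_triangle hΩ hZ hY hX
  linarith

theorem hdist_strict (hΩ : IsHilbertPlane Ω) {X Y Z : Plane} (hX : X ∈ Ω) (hY : Y ∈ Ω)
    (hZ : Z ∈ Ω) (hseg : Y ∉ segment ℝ X Z) : hdist Ω X Z < hdist Ω X Y + hdist Ω Y Z := by
  rw [hdist_eq hΩ hX hZ, hdist_eq hΩ hX hY, hdist_eq hΩ hY hZ]
  have h1 := funk_strict hΩ hX hY hZ hseg
  have h2 := funk_triangle hΩ hZ hY hX
  linarith

theorem hdist_additive (hΩ : IsHilbertPlane Ω) {X Y Z : Plane} (hX : X ∈ Ω) (hY : Y ∈ Ω)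
    (hZ : Z ∈ Ω) (hseg : Y ∈ segment ℝ X Z) : hdist Ω X Z = hdist Ω X Y + hdist Ω Y Z := by
  rw [hdist_eq hΩ hX hZ, hdist_eq hΩ hX hY, hdist_eq hΩ hY hZ]
  have h1 := funk_additive hΩ hX hY hZ hseg
  have h2 := funk_additive hΩ hZ hY hX (by rw [segment_symm]; exact hseg)
  linarith

theorem hdist_comm (hΩ : IsHilbertPlane Ω) {X Y : Plane} (hX : X ∈ Ω) (hY : Y ∈ Ω) :
    hdist Ω X Y = hdist Ω Y X := by
  rw [hdist_eq hΩ hX hY, hdist_eq hΩ hY hX]; ring

theorem hdist_pos (hΩ : IsHilbertPlane Ω) {X Y : Plane} (hX : X ∈ Ω) (hY : Y ∈ Ω) (hXY : X ≠ Y) :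
    0 < hdist Ω X Y := by
  rw [hdist_eq hΩ hX hY]
  have h1 := funk_pos hΩ hX hY hXY
  have h2 := funk_pos hΩ hY hX hXY.symm
  linarith

theorem hdist_nonneg (hΩ : IsHilbertPlane Ω) {X Y : Plane} (hX : X ∈ Ω) (hY : Y ∈ Ω) :
    0 ≤ hdist Ω X Y := by
  by_cases hXY : X = Y
  · subst hXY
    rw [hdist_eq hΩ hX hX, funk_self hX]; simp
  · exact (hdist_pos hΩ hX hY hXY).le

/-- Attainment of the distance to a closed set meeting `Ω`. -/
theorem exists_min (hΩ : IsHilbertPlane Ω) {X : Plane} (hX : X ∈ Ω) {K : Set Plane}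
    (hK : IsClosed K) {Y0 : Plane} (hY0 : Y0 ∈ Ω) (hY0K : Y0 ∈ K) :
    ∃ Y ∈ Ω, Y ∈ K ∧ ∀ Z ∈ Ω, Z ∈ K → hdist Ω X Y ≤ hdist Ω X Z := by
  set s : Set Plane := {v | X + v ∈ Ω} with hs
  have hsopen : IsOpen s := hΩ.isOpen.preimage (by fun_prop : Continuous (fun v : Plane => X + v))
  have hsconv : Convex ℝ s := hΩ.convex.translate_preimage_right X
  have hs0 : s ∈ 𝓝 (0 : Plane) := hsopen.mem_nhds (by simpa [hs] using hX)
  have hgc : Continuous (gauge s) := continuous_gauge hsconv hs0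
  -- formulas
  have gtau : ∀ Y ∈ Ω, 2 * hdist Ω X Y =
      Real.log ((1 + gauge s (X - Y)) / (1 - gauge s (Y - X))) := by
    intro Y hY
    by_cases hXY : X = Y
    · subst hXY
      rw [hdist_eq hΩ hX hX, funk_self hX]; simp
    obtain ⟨t1, c1, n1⟩ := tau_spec hΩ hX hY hXY
    obtain ⟨t2, c2, n2⟩ := tau_spec hΩ hY hX (Ne.symm hXY)
    have front : ∀ v : Plane, X + v ∈ closure Ω → X + v ∉ Ω → gauge s v = 1 := by
      intro v h1 h2
      rw [gauge_eq_one_iff_mem_frontier hsconv hs0, hsopen.frontier_eq]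
      refine ⟨?_, h2⟩
      have hpre : s = (Homeomorph.addLeft X) ⁻¹' Ω := rfl
      rw [hpre, ← (Homeomorph.addLeft X).preimage_closure]
      exact h1
    have g1 : tau Ω X Y * gauge s (Y - X) = 1 := by
      rw [← smul_eq_mul, ← gauge_smul_of_nonneg (by linarith : (0:ℝ) ≤ tau Ω X Y)]
      exact front _ c1 n1
    have e2 : Y + tau Ω Y X • (X - Y) = X + (tau Ω Y X - 1) • (X - Y) := by
      rw [sub_smul, one_smul]; abel
    rw [e2] at c2 n2
    have g2 : (tau Ω Y X - 1) * gauge s (X - Y) = 1 := by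
      rw [← smul_eq_mul, ← gauge_smul_of_nonneg (by linarith : (0:ℝ) ≤ tau Ω Y X - 1)]
      exact front _ c2 n2
    rw [hdist_eq hΩ hX hY]
    have k1 : gauge s (Y - X) = 1 / tau Ω X Y := by
      rw [eq_div_iff (by linarith)]; linarith
    have k2 : gauge s (X - Y) = 1 / (tau Ω Y X - 1) := by
      rw [eq_div_iff (by linarith)]; linarith
    unfold funk
    rw [k1, k2, mul_div_cancel₀ _ (two_ne_zero), ← Real.log_mul]
    · congr 1
      have h3 : tau Ω X Y - 1 ≠ 0 := by linarith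
      have h4 : tau Ω Y X - 1 ≠ 0 := by linarith
      have h5 : tau Ω X Y ≠ 0 := by linarith
      field_simp
      ring
    · exact (div_pos (by linarith) (by linarith)).ne'
    · exact (div_pos (by linarith) (by linarith)).ne'
  have glt : ∀ Y, gauge s (Y - X) < 1 ↔ Y ∈ Ω := by
    intro Y
    rw [gauge_lt_one_iff_mem_interior hsconv hs0, hsopen.interior_eq]
    simp [hs]
  set k : Plane → ℝ := fun Y => (1 - gauge s (Y - X)) / (1 + gauge s (X - Y)) with hk
  have hden : ∀ Y, 0 < 1 + gauge s (X - Y) := fun Y => by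
    have := gauge_nonneg (s := s) (X - Y); linarith
  have hkc : Continuous k := by
    apply Continuous.div
    · exact continuous_const.sub (hgc.comp (by fun_prop))
    · exact continuous_const.add (hgc.comp (by fun_prop))
    · intro Y; exact (hden Y).ne'
  have hcomp : IsCompact (closure Ω ∩ K) :=
    (hΩ.bounded.isCompact_closure).inter_right hK
  obtain ⟨Y, ⟨hYc, hYK⟩, hmax⟩ := hcomp.exists_isMaxOn ⟨Y0, subset_closure hY0, hY0K⟩ hkc.continuousOn
  have hkpos : ∀ Z ∈ Ω, 0 < k Z := by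
    intro Z hZ
    have := (glt Z).mpr hZ
    exact div_pos (by linarith) (hden Z)
  have hkY : 0 < k Y := lt_of_lt_of_le (hkpos Y0 hY0) (hmax ⟨subset_closure hY0, hY0K⟩)
  have hYΩ : Y ∈ Ω := by
    rw [← glt Y]
    have := (div_pos_iff_of_pos_right (hden Y)).mp hkY
    linarith
  refine ⟨Y, hYΩ, hYK, fun Z hZ hZK => ?_⟩
  have h1 := gtau Y hYΩ
  have h2 := gtau Z hZ
  have h3 : k Z ≤ k Y := hmax ⟨subset_closure hZ, hZK⟩
  have h4 : Real.log ((1 + gauge s (X - Y)) / (1 - gauge s (Y - X))) ≤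
      Real.log ((1 + gauge s (X - Z)) / (1 - gauge s (Z - X))) := by
    have a1 : (1 + gauge s (X - Y)) / (1 - gauge s (Y - X)) = (k Y)⁻¹ := by rw [hk]; simp
    have a2 : (1 + gauge s (X - Z)) / (1 - gauge s (Z - X)) = (k Z)⁻¹ := by rw [hk]; simp
    rw [a1, a2]
    apply Real.log_le_log (by positivity)
    exact inv_anti₀ (hkpos Z hZ) h3
  linarith

end Pool.Agent.Helper461.HC
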