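import Mathlib
import Pool.Agent.Helper461.HC.Geo
import Pool.Agent.Helper461.HC.Afun

open Set Topology Filter

namespace Pool.Agent.Helper461.HC

noncomputable def pt (a b : ℝ) : Plane := !₂[a, b]

@[simp] theorem pt_zero (a b : ℝ) : pt a b 0 = a := by simp [pt]
@[simp] theorem pt_one (a b : ℝ) : pt a b 1 = b := by simp [pt]

theorem plane_ext {V W : Plane} (h0 : V 0 = W 0) (h1 : V 1 = W 1) : V = W := by
  ext i
  fin_cases i
  · exact h0
  · exact h1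

theorem cont0 : Continuous (fun V : Plane => V 0) := by fun_prop
theorem cont1 : Continuous (fun V : Plane => V 1) := by fun_prop

/-- affine function on the plane -/
theorem isAff_lin (a b c : ℝ) : IsAff (fun V : Plane => a - b * V 0 - c * V 1) := by
  refine ⟨by fun_prop, ?_⟩
  intro X Y t
  simp only [PiLp.add_apply, PiLp.smul_apply, PiLp.sub_apply, smul_eq_mul]
  ring

noncomputable def g0 (w : ℝ) : ℝ := Real.sqrt (1 - w ^ 2)
noncomputable def zz (η w : ℝ) : ℝ := max 0 (η ^ 2 - (w - 3 / 5) ^ 2)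
noncomputable def dl (η w : ℝ) : ℝ := (1 / 32) * zz η w ^ 2
noncomputable def dl1 (η w : ℝ) : ℝ := (1 / 32) * (2 * zz η w * (-(2 * (w - 3 / 5))))
noncomputable def gp (η w : ℝ) : ℝ := g0 w + dl η w
noncomputable def gp1 (η w : ℝ) : ℝ := -w / g0 w + dl1 η w

theorem g0_nonneg (w : ℝ) : 0 ≤ g0 w := Real.sqrt_nonneg _
theorem g0_sq {w : ℝ} (h : w ∈ Icc (-1 : ℝ) 1) : g0 w ^ 2 = 1 - w ^ 2 :=
  Real.sq_sqrt (by nlinarith [h.1, h.2])
theorem g0_pos {w : ℝ} (h : w ∈ Ioo (-1 : ℝ) 1) : 0 < g0 w :=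
  Real.sqrt_pos.mpr (by nlinarith [h.1, h.2])
theorem g0_le_one (w : ℝ) : g0 w ≤ 1 := by
  unfold g0
  rw [Real.sqrt_le_left (by norm_num)]
  nlinarith [sq_nonneg w]
theorem zz_nonneg (η w : ℝ) : 0 ≤ zz η w := le_max_left _ _
theorem zz_le (η w : ℝ) : zz η w ≤ η ^ 2 := max_le (by positivity) (by nlinarith [sq_nonneg (w - 3/5)])
theorem dl_nonneg (η w : ℝ) : 0 ≤ dl η w := by unfold dl; positivity
theorem dl_le (η w : ℝ) : dl η w ≤ η ^ 4 / 32 := by
  unfold dl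
  have h1 := zz_nonneg η w
  have h2 := zz_le η w
  have : zz η w ^ 2 ≤ (η ^ 2) ^ 2 := pow_le_pow_left₀ h1 h2 2
  nlinarith
theorem zz_zero {η w : ℝ} (hη : 0 < η) (h : w ∉ Icc (3 / 5 - η) (3 / 5 + η)) : zz η w = 0 := by
  unfold zz
  apply max_eq_left
  rw [mem_Icc, not_and_or] at h
  rcases h with h | h <;> push Not at h <;> nlinarith
theorem dl_zero {η w : ℝ} (hη : 0 < η) (h : w ∉ Icc (3 / 5 - η) (3 / 5 + η)) : dl η w = 0 := by
  unfold dl; rw [zz_zero hη h]; ring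
theorem dl1_zero {η w : ℝ} (hη : 0 < η) (h : w ∉ Icc (3 / 5 - η) (3 / 5 + η)) : dl1 η w = 0 := by
  unfold dl1; rw [zz_zero hη h]; ring

theorem cont_g0 : Continuous g0 := by unfold g0; fun_prop
theorem cont_zz (η : ℝ) : Continuous (zz η) := by unfold zz; fun_prop
theorem cont_dl (η : ℝ) : Continuous (dl η) := by
  unfold dl; have := cont_zz η; fun_prop
theorem cont_gp (η : ℝ) : Continuous (gp η) := by
  unfold gp; have := cont_g0; have := cont_dl η; fun_prop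

theorem hasDerivAt_g0 {w : ℝ} (h : w ∈ Ioo (-1 : ℝ) 1) : HasDerivAt g0 (-w / g0 w) w := by
  have h1 : HasDerivAt (fun x : ℝ => 1 - x ^ 2) (-(2 * w)) w := by
    have := (hasDerivAt_pow 2 w).const_sub (1 : ℝ)
    exact this.congr_deriv (by norm_num)
  have hne : 1 - w ^ 2 ≠ 0 := by nlinarith [h.1, h.2]
  have h2 := h1.sqrt hne
  refine h2.congr_deriv ?_
  unfold g0
  rw [show -(2 * w) = 2 * (-w) by ring, mul_div_mul_left _ _ two_ne_zero]

theorem hasDerivAt_possq (z : ℝ) : HasDerivAt (fun x : ℝ => (max 0 x) ^ 2) (2 * max 0 z) z := by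
  rw [hasDerivAt_iff_isLittleO]
  have hbig : (fun x : ℝ => (max 0 x) ^ 2 - (max 0 z) ^ 2 - (x - z) • (2 * max 0 z)) =O[𝓝 z]
      (fun x => (x - z) ^ 2) := by
    apply Asymptotics.IsBigO.of_bound 1
    filter_upwards with x
    rw [one_mul, Real.norm_eq_abs, Real.norm_eq_abs, abs_of_nonneg (sq_nonneg (x - z)), smul_eq_mul,
      abs_le]
    rcases le_total 0 x with hx | hx <;> rcases le_total 0 z with hz | hz
    · rw [max_eq_right hx, max_eq_right hz]; constructor <;> nlinarith [sq_nonneg (x - z)]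
    · rw [max_eq_right hx, max_eq_left hz]; constructor <;> nlinarith [sq_nonneg (x - z)]
    · rw [max_eq_left hx, max_eq_right hz]; constructor <;> nlinarith [sq_nonneg (x - z)]
    · rw [max_eq_left hx, max_eq_left hz]; constructor <;> nlinarith [sq_nonneg (x - z)]
  refine hbig.trans_isLittleO ?_
  have := (Asymptotics.isLittleO_pow_sub_sub z (m := 2) (by norm_num))
  simpa using this

theorem hasDerivAt_dl (η w : ℝ) : HasDerivAt (dl η) (dl1 η w) w := by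
  have h1 : HasDerivAt (fun x : ℝ => η ^ 2 - (x - 3 / 5) ^ 2) (-(2 * (w - 3 / 5))) w := by
    have h := (((hasDerivAt_id w).sub_const (3 / 5 : ℝ)).pow 2).const_sub (η ^ 2)
    exact h.congr_deriv (by simp)
  have h2 := (hasDerivAt_possq (η ^ 2 - (w - 3 / 5) ^ 2)).comp w h1
  exact h2.const_mul (1 / 32 : ℝ)

theorem hasDerivAt_gp (η : ℝ) {w : ℝ} (h : w ∈ Ioo (-1 : ℝ) 1) : HasDerivAt (gp η) (gp1 η w) w :=
  (hasDerivAt_g0 h).add (hasDerivAt_dl η w)

/-- exact identity -/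
theorem cauchy_id {x w h g : ℝ} (hh : h ^ 2 = 1 - x ^ 2) (hg : g ^ 2 = 1 - w ^ 2) :
    2 * (1 - w * x) - 2 * h * g = (x - w) ^ 2 + (h - g) ^ 2 := by nlinarith

theorem g0_tangent {w v : ℝ} (hw : w ∈ Ioo (-1 : ℝ) 1) (hv : v ∈ Icc (-1 : ℝ) 1) :
    g0 v + (v - w) ^ 2 / 2 ≤ g0 w + (-w / g0 w) * (v - w) := by
  have hp := g0_pos hw
  have h1 := g0_sq (Ioo_subset_Icc_self hw)
  have h2 := g0_sq hv
  have h3 := cauchy_id h2 h1
  have h4 : g0 w + (-w / g0 w) * (v - w) = (1 - w * v) / g0 w := by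
    field_simp
    nlinarith
  rw [h4, le_div_iff₀ hp]
  nlinarith [sq_nonneg (v - w), sq_nonneg (g0 v - g0 w), g0_le_one w]

theorem dl_tangent {η w v : ℝ} (hw : w ∈ Icc (-1 : ℝ) 1) (hv : v ∈ Icc (-1 : ℝ) 1) :
    dl η v ≤ dl η w + dl1 η w * (v - w) + (v - w) ^ 2 / 2 := by
  unfold dl dl1
  set a := η ^ 2 - (w - 3 / 5) ^ 2 with ha
  set b := η ^ 2 - (v - 3 / 5) ^ 2 with hb
  have e1 : zz η w = max 0 a := rfl
  have e2 : zz η v = max 0 b := rfl
  rw [e1, e2]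
  have key : (max 0 b) ^ 2 - (max 0 a) ^ 2 - 2 * max 0 a * (b - a) ≤ (b - a) ^ 2 := by
    rcases le_total 0 a with hx | hx <;> rcases le_total 0 b with hz | hz
    · rw [max_eq_right hx, max_eq_right hz]; nlinarith
    · rw [max_eq_right hx, max_eq_left hz]; nlinarith
    · rw [max_eq_left hx, max_eq_right hz]; nlinarith
    · rw [max_eq_left hx, max_eq_left hz]; nlinarith [sq_nonneg (b - a)]
  have hba : b - a = -(v - w) * (v + w - 6 / 5) := by rw [ha, hb]; ring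
  have hba2 : b - a = -(2 * (w - 3 / 5)) * (v - w) - (v - w) ^ 2 := by rw [ha, hb]; ring
  have hsq : (b - a) ^ 2 ≤ 16 * (v - w) ^ 2 := by
    rw [hba]
    have : (v + w - 6 / 5) ^ 2 ≤ 16 := by nlinarith [hw.1, hw.2, hv.1, hv.2]
    nlinarith [sq_nonneg (v - w)]
  have hm : 0 ≤ max 0 a := le_max_left _ _
  have h5 : 2 * max 0 a * (b - a) = 2 * max 0 a * (-(2 * (w - 3 / 5)) * (v - w)) -
      2 * max 0 a * (v - w) ^ 2 := by rw [hba2]; ring
  nlinarith [mul_nonneg hm (sq_nonneg (v - w))]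

theorem gp_tangent {η w v : ℝ} (hw : w ∈ Ioo (-1 : ℝ) 1) (hv : v ∈ Icc (-1 : ℝ) 1) :
    gp η v ≤ gp η w + gp1 η w * (v - w) := by
  have h1 := g0_tangent hw hv
  have h2 := dl_tangent (η := η) (Ioo_subset_Icc_self hw) hv
  unfold gp gp1
  nlinarith

noncomputable def p0 (m : ℝ) : ℝ := (25 * rr m + 20 * m) / 9
noncomputable def q0 (m : ℝ) : ℝ := (25 * rr m - 20 * m) / 9
noncomputable def Aw (η w m : ℝ) : ℝ := AA (g0 w + gp η w) w (g0 w) m
noncomputable def A1w (η w m : ℝ) : ℝ := A1 (g0 w + gp η w) w (g0 w) m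
noncomputable def A2w (η w m : ℝ) : ℝ := A2 (g0 w + gp η w) w (g0 w) m
noncomputable def xx (m : ℝ) : ℝ := 12 / (5 * (5 * rr m - 3 * m))
noncomputable def yy (m : ℝ) : ℝ := 4 * rr m / (5 * rr m - 3 * m)
noncomputable def hh (m : ℝ) : ℝ := (3 * rr m - 5 * m) / (5 * rr m - 3 * m)

theorem rr_gt (m : ℝ) : |m| < rr m := by
  rw [← Real.sqrt_sq_eq_abs]
  unfold rr
  exact Real.sqrt_lt_sqrt (by positivity) (by linarith)

theorem den_pos (m : ℝ) : 0 < 5 * rr m - 3 * m := by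
  have := rr_gt m
  have := le_abs_self m
  have := rr_pos m
  nlinarith

theorem q0_pos (m : ℝ) : 0 < q0 m := by
  have := rr_gt m
  have := le_abs_self m
  have := rr_pos m
  unfold q0
  linarith

theorem xx_pos (m : ℝ) : 0 < xx m := by
  have := den_pos m
  unfold xx; positivity
theorem yy_pos (m : ℝ) : 0 < yy m := by
  have := den_pos m
  have := rr_pos m
  unfold yy; positivity
theorem yh_pos (m : ℝ) : 0 < yy m + hh m := by
  have h1 := den_pos m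
  have h2 := rr_gt m
  have h3 := le_abs_self m
  have h4 := rr_pos m
  unfold yy hh
  rw [← add_div]
  apply div_pos _ h1
  linarith

theorem hh_sq (m : ℝ) : hh m ^ 2 = 1 - xx m ^ 2 := by
  have h1 := den_pos m
  have h2 := rr_sq m
  unfold hh xx
  have e : (3 * rr m - 5 * m) ^ 2 = (5 * rr m - 3 * m) ^ 2 - 144 / 25 := by nlinarith
  rw [div_pow, e]
  have hd' : 5 * rr m - 3 * m ≠ 0 := h1.ne'
  field_simp
  ring

theorem AA_xx (s w g m : ℝ) (hD : 0 < DD w g m) : 1 - w * xx m + g * yy m > 0 ∧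
    xx m * AA s w g m =
      1 - (5 / 3) * (yy m + hh m) * ((1 - w * xx m - (s - g) * yy m) / (1 - w * xx m + g * yy m)) := by
  have h1 := den_pos m
  have h2 := rr_sq m
  have e1 : 1 - w * xx m + g * yy m = DD w g m / (5 * (5 * rr m - 3 * m)) := by
    unfold xx yy DD
    field_simp
    ring
  refine ⟨by rw [e1]; positivity, ?_⟩
  have e2 : 1 - w * xx m - (s - g) * yy m =
      (DD w g m - 20 * s * rr m) / (5 * (5 * rr m - 3 * m)) := by
    unfold xx yy DD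
    field_simp
    ring
  rw [e1, e2]
  unfold AA NN xx yy hh
  set D := DD w g m
  set r := rr m
  have h3 : (7 : ℝ) * (m ^ 2 + 9 / 25) = 7 * r ^ 2 := by rw [h2]
  rw [h3]
  have hd' : 5 * r - 3 * m ≠ 0 := h1.ne'
  have hD' : D ≠ 0 := hD.ne'
  field_simp
  ring

theorem p0_xx (m : ℝ) : xx m * p0 m = 1 - (5 / 3) * (hh m - yy m) := by
  have h1 := den_pos m
  unfold xx p0 hh yy
  have hd' : 5 * rr m - 3 * m ≠ 0 := h1.ne'
  field_simp
  ring

theorem disc_ray (x m : ℝ) : 1 - x ^ 2 - (4 / 5 + m * x) ^ 2 =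
    (9 / 25) * (1 - x * p0 m) * (1 + x * q0 m) := by
  have h2 := rr_sq m
  unfold p0 q0
  have : (9 / 25 : ℝ) * (1 - x * ((25 * rr m + 20 * m) / 9)) * (1 + x * ((25 * rr m - 20 * m) / 9)) =
    9 / 25 - (8/5) * m * x - x^2 * (625 * rr m ^ 2 - 400 * m ^ 2) / 225 := by ring
  rw [this, h2]
  ring

/-- comparison identity -/
theorem cmp_id {x y h w g δ : ℝ} (hh : h ^ 2 = 1 - x ^ 2) (hg : g ^ 2 = 1 - w ^ 2) :
    (1 - w * x - (g + δ) * y) * (h + y) - (1 - w * x + g * y) * (h - y) =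
      y * ((x - w) ^ 2 + (h - g) ^ 2 - (h + y) * δ) := by
  rw [← cauchy_id hh hg]; ring

structure Par (η μ : ℝ) : Prop where
  hη : 0 < η
  hη1 : η ≤ 1 / 100
  hμ : 0 < μ
  hμ1 : μ ≤ 1 / 100
  box : ∀ w ∈ Icc (3 / 5 - η) (3 / 5 + η), ∀ m ∈ Icc (-1 / 4 - μ) (-1 / 4 + μ),
    0 < DD w (g0 w) m ∧ 0 < A2w η w m ∧ 1 < Aw η w m ∧ |A1w η w m| < 2
  endp : ∀ m, m = -1 / 4 - μ ∨ m = -1 / 4 + μ → 2 * η ≤ |xx m - 3 / 5|
  slope : ∀ x y : ℝ, 9 * x ^ 2 + 16 * y ^ 2 - 40 * y + 16 = 0 → y < 1 → |x - 3 / 5| < 2 * η →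
    -1 / 4 - μ < (y - 4 / 5) / x ∧ (y - 4 / 5) / x < -1 / 4 + μ

end Pool.Agent.Helper461.HC
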