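import Mathlib
import Pool.Agent.Helper461.HC.Dom

open Set Topology Filter

namespace Pool.Agent.Helper461.HC

theorem xx_ne {m : ℝ} (h1 : m < 1) (h2 : m ≠ -1 / 4) : xx m ≠ 3 / 5 := by
  intro h
  have hd := den_pos m
  unfold xx at h
  rw [div_eq_iff (by positivity)] at h
  have h3 : rr m = (4 + 3 * m) / 5 := by linarith
  have h4 := rr_sq m
  rw [h3] at h4
  have h5 : (m + 1 / 4) * (m - 7 / 4) = 0 := by nlinarith
  rcases mul_eq_zero.mp h5 with h6 | h6
  · exact h2 (by linarith)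
  · linarith

theorem slope_cont : ∃ η : ℝ → ℝ, ∀ μ > 0, 0 < η μ ∧ ∀ x y : ℝ, 9 * x ^ 2 + 16 * y ^ 2 - 40 * y + 16 = 0 →
    y < 1 → |x - 3 / 5| < η μ → -1 / 4 - μ < (y - 4 / 5) / x ∧ (y - 4 / 5) / x < -1 / 4 + μ := by
  have : ∀ μ > (0:ℝ), ∃ η : ℝ, 0 < η ∧ ∀ x y : ℝ, 9 * x ^ 2 + 16 * y ^ 2 - 40 * y + 16 = 0 →
      y < 1 → |x - 3 / 5| < η → -1 / 4 - μ < (y - 4 / 5) / x ∧ (y - 4 / 5) / x < -1 / 4 + μ := by
    intro μ hμ
    have hc : ContinuousAt (fun x : ℝ => ((5 - 3 * Real.sqrt (1 - x ^ 2)) / 4 - 4 / 5) / x) (3 / 5) := by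
      apply ContinuousAt.div _ continuousAt_id (by norm_num)
      fun_prop
    have hv : ((5 - 3 * Real.sqrt (1 - (3 / 5 : ℝ) ^ 2)) / 4 - 4 / 5) / (3 / 5) = -1 / 4 := by
      rw [show (1 - (3 / 5 : ℝ) ^ 2) = (4 / 5) ^ 2 by norm_num, Real.sqrt_sq (by norm_num)]
      norm_num
    obtain ⟨η, hη, hball⟩ := Metric.continuousAt_iff.mp hc μ hμ
    refine ⟨η, hη, fun x y hq hy hx => ?_⟩
    have h1 := hball (x := x) (by rw [Real.dist_eq]; exact hx)
    rw [hv, Real.dist_eq] at h1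
    have h2 : Real.sqrt (1 - x ^ 2) = (5 - 4 * y) / 3 := by
      rw [Real.sqrt_eq_iff_mul_self_eq_of_pos (by linarith)]
      nlinarith
    rw [h2, show (5 - 3 * ((5 - 4 * y) / 3)) / 4 = y by ring] at h1
    rw [abs_lt] at h1
    constructor <;> linarith [h1.1, h1.2]
  choose! η hη using this
  exact ⟨η, hη⟩

theorem exists_par : ∃ η μ : ℝ, Par η μ := by
  obtain ⟨ρ, hρ, hbox⟩ := exists_box
  obtain ⟨ηf, hηf⟩ := slope_cont
  set μ := min (ρ / 2) (1 / 100) with hμdef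
  have hμ : 0 < μ := by positivity
  have hμ1 : μ ≤ 1 / 100 := min_le_right _ _
  have hμ2 : μ ≤ ρ / 2 := min_le_left _ _
  have ha : 0 < |xx (-1 / 4 - μ) - 3 / 5| :=
    abs_pos.mpr (sub_ne_zero.mpr (xx_ne (by linarith) (by linarith)))
  have hb : 0 < |xx (-1 / 4 + μ) - 3 / 5| :=
    abs_pos.mpr (sub_ne_zero.mpr (xx_ne (by linarith) (by linarith)))
  obtain ⟨hη0, hsl⟩ := hηf μ hμ
  set η := min (min (1 / 100) (ρ / 16)) (min (min (|xx (-1 / 4 - μ) - 3 / 5| / 2)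
    (|xx (-1 / 4 + μ) - 3 / 5| / 2)) (ηf μ / 2)) with hηdef
  have hη : 0 < η := by positivity
  have k1 : η ≤ 1 / 100 := le_trans (min_le_left _ _) (min_le_left _ _)
  have k2 : η ≤ ρ / 16 := le_trans (min_le_left _ _) (min_le_right _ _)
  have k3 : η ≤ |xx (-1 / 4 - μ) - 3 / 5| / 2 :=
    le_trans (min_le_right _ _) (le_trans (min_le_left _ _) (min_le_left _ _))
  have k4 : η ≤ |xx (-1 / 4 + μ) - 3 / 5| / 2 :=
    le_trans (min_le_right _ _) (le_trans (min_le_left _ _) (min_le_right _ _))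
  have k5 : η ≤ ηf μ / 2 := le_trans (min_le_right _ _) (min_le_right _ _)
  refine ⟨η, μ, hη, k1, hμ, hμ1, ?_, ?_, ?_⟩
  · intro w hw m hm
    have hw1 : w ∈ Icc (-1 : ℝ) 1 := ⟨by linarith [hw.1], by linarith [hw.2]⟩
    have hg := g0_sq hw1
    have hgn := g0_nonneg w
    have hg2 : |g0 w - 4 / 5| ≤ 2 * η := by
      rw [abs_le]
      constructor <;> nlinarith [hw.1, hw.2]
    have hdl := dl_le η w
    have hdn := dl_nonneg η w
    have hdl2 : dl η w ≤ η := by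
      have : η ^ 4 ≤ η := by
        have h1 : η ^ 3 ≤ 1 := pow_le_one₀ hη.le (by linarith)
        nlinarith
      linarith
    have hs : |g0 w + gp η w - 8 / 5| < ρ := by
      unfold gp
      rw [abs_le] at hg2
      rw [abs_lt]
      constructor <;> linarith [hg2.1, hg2.2]
    apply hbox
    · exact hs
    · rw [abs_lt]; constructor <;> linarith [hw.1, hw.2]
    · exact lt_of_le_of_lt hg2 (by linarith)
    · rw [abs_lt]; constructor <;> linarith [hm.1, hm.2]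
  · rintro m (rfl | rfl)
    · linarith
    · linarith
  · intro x y hq hy hx
    exact hsl x y hq hy (lt_of_lt_of_le hx (by linarith))

end Pool.Agent.Helper461.HC
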