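import Mathlib
import Pool.Agent.Helper461.HC.Par

open Set Topology Filter

namespace Pool.Agent.Helper461.HC

/-- index set of the side constraints -/
def KS (η μ : ℝ) : Set (ℝ × ℝ) :=
  {z | z ∈ Icc (3 / 5 - η) (3 / 5 + η) ×ˢ Icc (-1 / 4 - μ) (-1 / 4 + μ) ∧ p0 z.2 ≤ Aw η z.1 z.2}

/-- side functional -/
noncomputable def LS (η w m : ℝ) (V : Plane) : ℝ :=
  (Aw η w m - m * A1w η w m) * V 0 + A1w η w m * (V 1 - 4 / 5)

def CC (η μ : ℝ) : Set Plane :=
  {V | (∀ w ∈ Icc (-1 : ℝ) 1, w * V 0 + gp η w * V 1 ≤ 1) ∧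
    (∀ w ∈ Icc (-1 : ℝ) 1, w * V 0 - g0 w * V 1 ≤ 1) ∧
    ∀ z ∈ KS η μ, LS η z.1 z.2 V ≤ 1}

def OO (η μ : ℝ) : Set Plane :=
  {V | (∀ w ∈ Icc (-1 : ℝ) 1, w * V 0 + gp η w * V 1 < 1) ∧
    (∀ w ∈ Icc (-1 : ℝ) 1, w * V 0 - g0 w * V 1 < 1) ∧
    ∀ z ∈ KS η μ, LS η z.1 z.2 V < 1}

theorem isOpen_compact {κ : Type} [TopologicalSpace κ] [CompactSpace κ] {a b c : κ → ℝ}
    (ha : Continuous a) (hb : Continuous b) (hc : Continuous c) :
    IsOpen {V : Plane | ∀ i, a i * V 0 + b i * V 1 + c i < 1} := by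
  have h : {V : Plane | ∀ i, a i * V 0 + b i * V 1 + c i < 1}ᶜ =
      Prod.snd '' {z : κ × Plane | 1 ≤ a z.1 * z.2 0 + b z.1 * z.2 1 + c z.1} := by
    ext V
    constructor
    · intro hV
      simp only [mem_compl_iff, Set.mem_ofPred_eq, not_forall, not_lt] at hV
      obtain ⟨i, hi⟩ := hV
      exact ⟨(i, V), hi, rfl⟩
    · rintro ⟨⟨i, W⟩, hi, rfl⟩ hall
      exact absurd (hall i) (not_lt.mpr hi)
  rw [← isClosed_compl_iff, h]
  apply isClosedMap_snd_of_compactSpace
  apply isClosed_le continuous_const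
  fun_prop

theorem isOpen_compactOn {ι : Type} [TopologicalSpace ι] {K : Set ι} (hK : IsCompact K) {a b c : ι → ℝ}
    (ha : ContinuousOn a K) (hb : ContinuousOn b K) (hc : ContinuousOn c K) :
    IsOpen {V : Plane | ∀ i ∈ K, a i * V 0 + b i * V 1 + c i < 1} := by
  have : CompactSpace K := isCompact_iff_compactSpace.mp hK
  have h := isOpen_compact (κ := K) (a := fun i => a i.1) (b := fun i => b i.1) (c := fun i => c i.1)
    (continuousOn_iff_continuous_domRestrict.mp ha)
    (continuousOn_iff_continuous_domRestrict.mp hb) (continuousOn_iff_continuous_domRestrict.mp hc)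
  have e : {V : Plane | ∀ i ∈ K, a i * V 0 + b i * V 1 + c i < 1} =
      {V : Plane | ∀ i : K, a i.1 * V 0 + b i.1 * V 1 + c i.1 < 1} := by
    ext V
    constructor
    · intro hV i; exact hV i.1 i.2
    · intro hV i hi; exact hV ⟨i, hi⟩
  rw [e]
  exact h

theorem cont_rr : Continuous rr := by unfold rr; fun_prop

theorem contOn_Aw {η μ : ℝ} (hp : Par η μ) :
    ContinuousOn (fun z : ℝ × ℝ => Aw η z.1 z.2)
      (Icc (3 / 5 - η) (3 / 5 + η) ×ˢ Icc (-1 / 4 - μ) (-1 / 4 + μ)) := by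
  have h1 := cont_rr
  have h2 := cont_g0
  have h3 := cont_gp η
  unfold Aw AA NN
  apply ContinuousOn.add
  · apply Continuous.continuousOn; fun_prop
  · apply ContinuousOn.mul
    · apply Continuous.continuousOn; fun_prop
    · apply ContinuousOn.div
      · apply Continuous.continuousOn; fun_prop
      · apply Continuous.continuousOn; unfold DD; fun_prop
      · intro z hz; exact (hp.box z.1 hz.1 z.2 hz.2).1.ne'

theorem contOn_A1w {η μ : ℝ} (hp : Par η μ) :
    ContinuousOn (fun z : ℝ × ℝ => A1w η z.1 z.2)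
      (Icc (3 / 5 - η) (3 / 5 + η) ×ˢ Icc (-1 / 4 - μ) (-1 / 4 + μ)) := by
  have h1 := cont_rr
  have h2 := cont_g0
  have h3 := cont_gp η
  have hce0 : Continuous e0 := continuous_id.div h1 (fun m => (rr_pos m).ne')
  unfold A1w A1 NN N1 D1
  apply ContinuousOn.add
  · apply Continuous.continuousOn; fun_prop
  · apply ContinuousOn.mul
    · apply Continuous.continuousOn; fun_prop
    · apply ContinuousOn.div
      · apply Continuous.continuousOn; unfold DD; fun_prop
      · apply Continuous.continuousOn; unfold DD; fun_prop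
      · intro z hz; exact pow_ne_zero 2 (hp.box z.1 hz.1 z.2 hz.2).1.ne'

theorem compact_KS {η μ : ℝ} (hp : Par η μ) : IsCompact (KS η μ) := by
  have hcomp : IsCompact (Icc (3 / 5 - η) (3 / 5 + η) ×ˢ Icc (-1 / 4 - μ) (-1 / 4 + μ)) :=
    isCompact_Icc.prod isCompact_Icc
  have hcl : IsClosed (Icc (3 / 5 - η) (3 / 5 + η) ×ˢ Icc (-1 / 4 - μ) (-1 / 4 + μ)) := hcomp.isClosed
  apply hcomp.of_isClosed_subset _ (fun z hz => hz.1)
  have h1 : Continuous (fun z : ℝ × ℝ => p0 z.2) := by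
    have := cont_rr; unfold p0; fun_prop
  exact hcl.isClosed_le h1.continuousOn (contOn_Aw hp)

theorem isOpen_OO {η μ : ℝ} (hp : Par η μ) : IsOpen (OO η μ) := by
  have h1 : IsOpen {V : Plane | ∀ w ∈ Icc (-1 : ℝ) 1, w * V 0 + gp η w * V 1 + 0 < 1} :=
    isOpen_compactOn isCompact_Icc continuous_id.continuousOn (cont_gp η).continuousOn
      continuous_const.continuousOn
  have h2 : IsOpen {V : Plane | ∀ w ∈ Icc (-1 : ℝ) 1, w * V 0 + (-g0 w) * V 1 + 0 < 1} :=
    isOpen_compactOn isCompact_Icc continuous_id.continuousOn cont_g0.neg.continuousOn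
      continuous_const.continuousOn
  have hsub : KS η μ ⊆ Icc (3 / 5 - η) (3 / 5 + η) ×ˢ Icc (-1 / 4 - μ) (-1 / 4 + μ) := fun z hz => hz.1
  have cA := (contOn_Aw hp).mono hsub
  have cA1 := (contOn_A1w hp).mono hsub
  have h3 : IsOpen {V : Plane | ∀ z ∈ KS η μ, (Aw η z.1 z.2 - z.2 * A1w η z.1 z.2) * V 0 +
      A1w η z.1 z.2 * V 1 + (-(4 / 5) * A1w η z.1 z.2) < 1} := by
    apply isOpen_compactOn (compact_KS hp)
      (a := fun z => Aw η z.1 z.2 - z.2 * A1w η z.1 z.2) (b := fun z => A1w η z.1 z.2)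
      (c := fun z => -(4 / 5) * A1w η z.1 z.2)
    · exact cA.sub (continuous_snd.continuousOn.mul cA1)
    · exact cA1
    · exact continuousOn_const.mul cA1
  have : OO η μ = {V : Plane | ∀ w ∈ Icc (-1 : ℝ) 1, w * V 0 + gp η w * V 1 + 0 < 1} ∩
      ({V : Plane | ∀ w ∈ Icc (-1 : ℝ) 1, w * V 0 + (-g0 w) * V 1 + 0 < 1} ∩
      {V : Plane | ∀ z ∈ KS η μ, (Aw η z.1 z.2 - z.2 * A1w η z.1 z.2) * V 0 +
      A1w η z.1 z.2 * V 1 + (-(4 / 5) * A1w η z.1 z.2) < 1}) := by
    ext V
    constructor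
    · rintro ⟨a, b, c⟩
      refine ⟨fun w hw => by have := a w hw; linarith, fun w hw => by have := b w hw; linarith,
        fun z hz => ?_⟩
      have := c z hz
      unfold LS at this
      linarith
    · rintro ⟨a, b, c⟩
      refine ⟨fun w hw => by have := a w hw; linarith, fun w hw => by have := b w hw; linarith,
        fun z hz => ?_⟩
      have := c z hz
      unfold LS
      linarith
  rw [this]
  exact h1.inter (h2.inter h3)

theorem isClosed_CC (η μ : ℝ) : IsClosed (CC η μ) := by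
  have h1 : IsClosed {V : Plane | ∀ w ∈ Icc (-1 : ℝ) 1, w * V 0 + gp η w * V 1 ≤ 1} := by
    have : {V : Plane | ∀ w ∈ Icc (-1 : ℝ) 1, w * V 0 + gp η w * V 1 ≤ 1} =
        ⋂ w ∈ Icc (-1 : ℝ) 1, {V : Plane | w * V 0 + gp η w * V 1 ≤ 1} := by
      ext V; simp
    rw [this]
    exact isClosed_biInter fun w _ => isClosed_le (by fun_prop) continuous_const
  have h2 : IsClosed {V : Plane | ∀ w ∈ Icc (-1 : ℝ) 1, w * V 0 - g0 w * V 1 ≤ 1} := by
    have : {V : Plane | ∀ w ∈ Icc (-1 : ℝ) 1, w * V 0 - g0 w * V 1 ≤ 1} =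
        ⋂ w ∈ Icc (-1 : ℝ) 1, {V : Plane | w * V 0 - g0 w * V 1 ≤ 1} := by
      ext V; simp
    rw [this]
    exact isClosed_biInter fun w _ => isClosed_le (by fun_prop) continuous_const
  have h3 : IsClosed {V : Plane | ∀ z ∈ KS η μ, LS η z.1 z.2 V ≤ 1} := by
    have : {V : Plane | ∀ z ∈ KS η μ, LS η z.1 z.2 V ≤ 1} =
        ⋂ z ∈ KS η μ, {V : Plane | LS η z.1 z.2 V ≤ 1} := by
      ext V; simp
    rw [this]
    exact isClosed_biInter fun z _ => isClosed_le (by unfold LS; fun_prop) continuous_const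
  exact h1.inter (h2.inter h3)

theorem OO_sub_CC (η μ : ℝ) : OO η μ ⊆ CC η μ :=
  fun _ h => ⟨fun w hw => (h.1 w hw).le, fun w hw => (h.2.1 w hw).le, fun z hz => (h.2.2 z hz).le⟩

/-- the focus -/
noncomputable def FF : Plane := pt 0 (4 / 5)

@[simp] theorem FF0 : FF 0 = 0 := by simp [FF]
@[simp] theorem FF1 : FF 1 = 4 / 5 := by simp [FF]

theorem gp_le {η : ℝ} (h1 : 0 < η) (h2 : η ≤ 1 / 100) (w : ℝ) : gp η w ≤ 1 + 1 / 32 := by
  have a := g0_le_one w
  have b := dl_le η w
  have c : η ^ 4 ≤ 1 := pow_le_one₀ h1.le (by linarith)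
  unfold gp
  linarith

theorem gp_nonneg (η w : ℝ) : 0 ≤ gp η w := add_nonneg (g0_nonneg w) (dl_nonneg η w)

theorem FF_mem {η μ : ℝ} (hp : Par η μ) : FF ∈ OO η μ := by
  refine ⟨fun w _ => ?_, fun w _ => ?_, fun z _ => ?_⟩
  · have := gp_le hp.hη hp.hη1 w
    rw [FF0, FF1]
    linarith
  · have := g0_nonneg w
    rw [FF0, FF1]; linarith
  · unfold LS; rw [FF0, FF1]; norm_num

theorem comb_mem {η μ : ℝ} {V W : Plane} (hV : V ∈ OO η μ) (hW : W ∈ CC η μ) {a b : ℝ} (ha : 0 < a)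
    (hb : 0 ≤ b) (hab : a + b = 1) : a • V + b • W ∈ OO η μ := by
  refine ⟨fun w hw => ?_, fun w hw => ?_, fun z hz => ?_⟩
  · have h1 := hV.1 w hw
    have h2 := hW.1 w hw
    simp only [PiLp.add_apply, PiLp.smul_apply, smul_eq_mul]
    nlinarith
  · have h1 := hV.2.1 w hw
    have h2 := hW.2.1 w hw
    simp only [PiLp.add_apply, PiLp.smul_apply, smul_eq_mul]
    nlinarith
  · have h1 := hV.2.2 z hz
    have h2 := hW.2.2 z hz
    unfold LS at h1 h2 ⊢
    simp only [PiLp.add_apply, PiLp.smul_apply, smul_eq_mul]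
    have hb' : b = 1 - a := by linarith
    subst hb'
    nlinarith

theorem convex_OO (η μ : ℝ) : Convex ℝ (OO η μ) := by
  intro V hV W hW a b ha hb hab
  rcases eq_or_lt_of_le ha with h | h
  · have : b = 1 := by linarith
    rw [← h, this]; simpa using hW
  · exact comb_mem hV (OO_sub_CC η μ hW) h hb hab

theorem closure_OO {η μ : ℝ} (hp : Par η μ) : closure (OO η μ) = CC η μ := by
  apply Subset.antisymm (closure_minimal (OO_sub_CC η μ) (isClosed_CC η μ))
  intro W hW
  have hc : Continuous (fun t : ℝ => (1 - t) • FF + t • W) := by fun_prop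
  have h1 : (1 : ℝ) ∈ closure (Ico (0 : ℝ) 1) := by
    rw [closure_Ico (by norm_num)]; exact ⟨by norm_num, le_rfl⟩
  have h2 := image_closure_subset_closure_image hc (mem_image_of_mem _ h1)
  simp only [sub_self, zero_smul, one_smul, zero_add] at h2
  refine closure_mono ?_ h2
  rintro _ ⟨t, ht, rfl⟩
  exact comb_mem (FF_mem hp) hW (by linarith [ht.2]) ht.1 (by ring)

theorem norm_TB {η : ℝ} {V : Plane} (hV1 : ∀ w ∈ Icc (-1 : ℝ) 1, w * V 0 + gp η w * V 1 ≤ 1)
    (hV2 : ∀ w ∈ Icc (-1 : ℝ) 1, w * V 0 - g0 w * V 1 ≤ 1) : V 0 ^ 2 + V 1 ^ 2 ≤ 1 := by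
  by_contra hlt
  push Not at hlt
  set n := Real.sqrt (V 0 ^ 2 + V 1 ^ 2) with hn
  have hn2 : n ^ 2 = V 0 ^ 2 + V 1 ^ 2 := Real.sq_sqrt (by positivity)
  have hn1 : 1 < n := by
    by_contra h; push Not at h
    have : 0 ≤ n := Real.sqrt_nonneg _
    nlinarith
  have hw : V 0 / n ∈ Icc (-1 : ℝ) 1 := by
    constructor
    · rw [le_div_iff₀ (by linarith)]
      by_contra h; push Not at h
      nlinarith [sq_nonneg (V 1)]
    · rw [div_le_iff₀ (by linarith)]
      by_contra h; push Not at h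
      nlinarith [sq_nonneg (V 1)]
  have hg : g0 (V 0 / n) = |V 1| / n := by
    unfold g0
    rw [show 1 - (V 0 / n) ^ 2 = (|V 1| / n) ^ 2 by
      rw [div_pow, div_pow, sq_abs]
      have : n ^ 2 ≠ 0 := by positivity
      field_simp
      linarith]
    exact Real.sqrt_sq (by positivity)
  rcases le_total 0 (V 1) with h | h
  · have h1 := hV1 _ hw
    have h2 : g0 (V 0 / n) ≤ gp η (V 0 / n) := by
      have := dl_nonneg η (V 0 / n); unfold gp; linarith
    rw [hg, abs_of_nonneg h] at h2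
    have h3 : V 0 / n * V 0 + V 1 / n * V 1 = n := by
      have : n ≠ 0 := by linarith
      field_simp
      linarith
    nlinarith
  · have h1 := hV2 _ hw
    rw [hg, abs_of_nonpos h] at h1
    have h3 : V 0 / n * V 0 - -V 1 / n * V 1 = n := by
      have : n ≠ 0 := by linarith
      field_simp
      linarith
    linarith

theorem norm_CC {η μ : ℝ} {V : Plane} (hV : V ∈ CC η μ) : V 0 ^ 2 + V 1 ^ 2 ≤ 1 :=
  norm_TB hV.1 hV.2.1

theorem cauchy_le {V : Plane} (hV : V 0 ^ 2 + V 1 ^ 2 ≤ 1) {w : ℝ} (hw : w ∈ Icc (-1 : ℝ) 1) :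
    w * V 0 + g0 w * V 1 ≤ 1 := by
  have := g0_sq hw
  nlinarith [sq_nonneg (V 0 - w), sq_nonneg (V 1 - g0 w)]

theorem cauchy_le' {V : Plane} (hV : V 0 ^ 2 + V 1 ^ 2 ≤ 1) {w : ℝ} (hw : w ∈ Icc (-1 : ℝ) 1) :
    w * V 0 - g0 w * V 1 ≤ 1 := by
  have := g0_sq hw
  nlinarith [sq_nonneg (V 0 - w), sq_nonneg (V 1 + g0 w)]

theorem bounded_OO (η μ : ℝ) : Bornology.IsBounded (OO η μ) := by
  apply (Metric.isBounded_closedBall (x := (0 : Plane)) (r := 1)).subset
  intro V hV
  have h := norm_CC (OO_sub_CC η μ hV)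
  rw [mem_closedBall_zero_iff, EuclideanSpace.norm_eq, Real.sqrt_le_left (by norm_num)]
  simp only [Fin.sum_univ_two, Real.norm_eq_abs, sq_abs]
  linarith

theorem norm_OO {η μ : ℝ} {V : Plane} (hV : V ∈ OO η μ) : V 0 ^ 2 + V 1 ^ 2 < 1 := by
  by_contra hlt
  push Not at hlt
  have h1 := norm_CC (OO_sub_CC η μ hV)
  have h2 : V 0 ^ 2 + V 1 ^ 2 = 1 := le_antisymm h1 hlt
  have hw : V 0 ∈ Icc (-1 : ℝ) 1 := ⟨by nlinarith [sq_nonneg (V 1)], by nlinarith [sq_nonneg (V 1)]⟩
  have hg : g0 (V 0) = |V 1| := by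
    unfold g0
    rw [show 1 - V 0 ^ 2 = |V 1| ^ 2 by rw [sq_abs]; linarith]
    exact Real.sqrt_sq (abs_nonneg _)
  rcases le_total 0 (V 1) with h | h
  · have h3 := hV.1 _ hw
    have h4 : g0 (V 0) ≤ gp η (V 0) := by
      have := dl_nonneg η (V 0); unfold gp; linarith
    rw [hg, abs_of_nonneg h] at h4
    nlinarith
  · have h3 := hV.2.1 _ hw
    rw [hg, abs_of_nonpos h] at h3
    nlinarith

/-- comparison: side function against the circle -/
theorem Aw_lt_p0 {η μ : ℝ} (hp : Par η μ) {w m : ℝ} (hw : w ∈ Icc (3 / 5 - η) (3 / 5 + η))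
    (hm : m ∈ Icc (-1 / 4 - μ) (-1 / 4 + μ)) (hx : 2 * η ≤ |xx m - 3 / 5|) :
    Aw η w m < p0 m := by
  obtain ⟨hD, -, -, -⟩ := hp.box w hw m hm
  have hη := hp.hη
  have hη1 := hp.hη1
  have hw1 : w ∈ Icc (-1 : ℝ) 1 := ⟨by linarith [hw.1], by linarith [hw.2]⟩
  obtain ⟨e1, e2⟩ := AA_xx (g0 w + gp η w) w (g0 w) m hD
  have e3 := p0_xx m
  have hxp := xx_pos m
  have hyp := yy_pos m
  have hyh := yh_pos m
  have hh2 := hh_sq m
  have hg2 := g0_sq hw1
  have hdn := dl_nonneg η w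
  have hdl := dl_le η w
  have hid := cmp_id (δ := dl η w) (y := yy m) hh2 hg2
  have hsq : η ^ 2 ≤ (xx m - w) ^ 2 := by
    rcases le_abs.mp hx with h | h
    · have : η ≤ xx m - w := by linarith [hw.2]
      nlinarith
    · have : η ≤ w - xx m := by linarith [hw.1]
      nlinarith
  have hh1 : hh m ≤ 1 := by nlinarith [sq_nonneg (xx m)]
  have hy1 : yy m ≤ 4 := by
    have h1 := den_pos m
    have h2 := rr_gt m
    have h3 := le_abs_self m
    unfold yy
    rw [div_le_iff₀ h1]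
    have := rr_pos m
    nlinarith
  have hpos : 0 < (1 - w * xx m - (g0 w + dl η w) * yy m) * (hh m + yy m) -
      (1 - w * xx m + g0 w * yy m) * (hh m - yy m) := by
    rw [hid]
    apply mul_pos hyp
    have : (hh m + yy m) * dl η w ≤ 5 * (η ^ 4 / 32) := by
      apply mul_le_mul (by linarith) hdl hdn (by norm_num)
    have h4 : η ^ 4 ≤ η ^ 2 := by
      have : η ^ 2 ≤ 1 := pow_le_one₀ hη.le (by linarith)
      nlinarith [sq_nonneg η]
    have h5 : 0 < η ^ 2 := by positivity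
    nlinarith [sq_nonneg (hh m - g0 w)]
  have e4 : g0 w + gp η w - g0 w = g0 w + dl η w := by unfold gp; ring
  rw [e4] at e2
  have hlt : xx m * Aw η w m < xx m * p0 m := by
    unfold Aw
    rw [e2, e3]
    have : (hh m - yy m) < (yy m + hh m) *
        ((1 - w * xx m - (g0 w + dl η w) * yy m) / (1 - w * xx m + g0 w * yy m)) := by
      rw [← mul_div_assoc, lt_div_iff₀ e1]
      nlinarith
    linarith
  exact lt_of_mul_lt_mul_left hlt hxp.le

theorem Aw_tangent {η μ : ℝ} (hp : Par η μ) {w m m' : ℝ} (hw : w ∈ Icc (3 / 5 - η) (3 / 5 + η))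
    (hm : m ∈ Icc (-1 / 4 - μ) (-1 / 4 + μ)) (hm' : m' ∈ Icc (-1 / 4 - μ) (-1 / 4 + μ))
    (hne : m' ≠ m) : Aw η w m + A1w η w m * (m' - m) < Aw η w m' :=
  A_tangent (fun x hx => (hp.box w hw x hx).1) (fun x hx => (hp.box w hw x hx).2.1) hm hm' hne

theorem ray_le {x m : ℝ} (hx : 0 < x) (hV : x ^ 2 + (4 / 5 + m * x) ^ 2 ≤ 1) : x * p0 m ≤ 1 := by
  have h := disc_ray x m
  have hq := q0_pos m
  by_contra hlt
  push Not at hlt
  have : 0 < 1 + x * q0 m := by positivity
  nlinarith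

/-- points of the disc outside the cone satisfy the side constraints strictly -/
theorem out_lt {η μ : ℝ} (hp : Par η μ) {w m : ℝ} (hz : (w, m) ∈ KS η μ) {V : Plane}
    (hV : V 0 ^ 2 + V 1 ^ 2 ≤ 1)
    (hout : (-1 / 4 + μ) * V 0 < V 1 - 4 / 5 ∨ V 1 - 4 / 5 < (-1 / 4 - μ) * V 0) :
    LS η w m V < 1 := by
  obtain ⟨⟨hw, hm⟩, hA⟩ := hz
  simp only at hw hm hA
  obtain ⟨hD, h2, h3, h4⟩ := hp.box w hw m hm
  have hμ := hp.hμ
  have hμ1 := hp.hμ1
  set A := Aw η w m with hAdef
  set B := A1w η w m with hBdef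
  have hApos : 0 < A := by linarith
  -- the point V* on the side curve
  have key : ∀ me : ℝ, (me = -1 / 4 - μ ∨ me = -1 / 4 + μ) →
      ((V 1 - 4 / 5 - me * V 0) * (m - me) < 0) → LS η w m V < 1 := by
    intro me hme hsign
    have hmeIcc : me ∈ Icc (-1 / 4 - μ) (-1 / 4 + μ) := by
      rcases hme with h | h <;> rw [h] <;> constructor <;> linarith
    have hend : Aw η w me < p0 me := Aw_lt_p0 hp hw hmeIcc (hp.endp me hme)
    have hne : me ≠ m := by
      rintro rfl; simp at hsign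
    have htan := Aw_tangent hp hw hm hmeIcc hne
    rw [← hAdef, ← hBdef] at htan
    by_contra hge
    push Not at hge
    unfold LS at hge
    rw [← hAdef, ← hBdef] at hge
    -- convex combination parameter
    set hv := V 1 - 4 / 5 - me * V 0 with hvdef
    set hs := (m - me) / A with hsdef
    have hsv : hs * hv < 0 := by
      rw [hsdef, div_mul_eq_mul_div]
      apply div_neg_of_neg_of_pos _ hApos
      linarith
    have hsne : hs ≠ 0 := by rintro h; rw [h] at hsv; simp at hsv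
    have hdne : hs - hv ≠ 0 := by
      intro h
      have : hs = hv := by linarith
      rw [this] at hsv; nlinarith
    set t := hs / (hs - hv) with htdef
    have ht0 : 0 < t ∧ t < 1 := by
      rcases lt_or_gt_of_ne hsne with h | h
      · have hv0 : 0 < hv := by by_contra hh; push Not at hh; nlinarith
        have : hs - hv < 0 := by linarith
        constructor
        · exact div_pos_of_neg_of_neg h this
        · rw [htdef, div_lt_one_of_neg this]; linarith
      · have hv0 : hv < 0 := by by_contra hh; push Not at hh; nlinarith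
        have : 0 < hs - hv := by linarith
        constructor
        · exact div_pos h this
        · rw [htdef, div_lt_one this]; linarith
    -- coordinates of the crossing point
    set xs := 1 / A with hxs
    set ys := 4 / 5 + m / A with hys
    set xe := (1 - t) * xs + t * V 0 with hxe
    set ye := (1 - t) * ys + t * V 1 with hye
    have hline : ye - 4 / 5 = me * xe := by
      have : (1 - t) * hs + t * hv = 0 := by
        rw [htdef]; field_simp; ring
      have e : (1 - t) * hs + t * hv = ye - 4 / 5 - me * xe := by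
        rw [hye, hxe, hsdef, hvdef, hxs, hys]; ring
      linarith
    -- the point V* in the disc
    have hdisc : xs ^ 2 + ys ^ 2 ≤ 1 := by
      have h := disc_ray xs m
      have hq := q0_pos m
      have hx1 : xs * p0 m ≤ 1 := by
        rw [hxs, one_div, inv_mul_le_iff₀ hApos]; linarith
      have hxpos : 0 < xs := by positivity
      have e : ys = 4 / 5 + m * xs := by rw [hys, hxs]; ring
      rw [e]
      have : 0 ≤ (9 / 25) * (1 - xs * p0 m) * (1 + xs * q0 m) := by
        apply mul_nonneg (by nlinarith) (by positivity)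
      linarith
    have hdisce : xe ^ 2 + ye ^ 2 ≤ 1 := by
      have e : xe ^ 2 + ye ^ 2 ≤ (1 - t) * (xs ^ 2 + ys ^ 2) + t * (V 0 ^ 2 + V 1 ^ 2) := by
        rw [hxe, hye]
        nlinarith [mul_nonneg (mul_nonneg ht0.1.le (sub_nonneg.mpr ht0.2.le)) (sq_nonneg (xs - V 0)),
          mul_nonneg (mul_nonneg ht0.1.le (sub_nonneg.mpr ht0.2.le)) (sq_nonneg (ys - V 1))]
      nlinarith [ht0.1, ht0.2]
    have hL : 1 ≤ (A - m * B) * xe + B * (ye - 4 / 5) := by
      have e : (A - m * B) * xe + B * (ye - 4 / 5) =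
          (1 - t) * ((A - m * B) * xs + B * (ys - 4 / 5)) + t * ((A - m * B) * V 0 + B * (V 1 - 4 / 5)) := by
        rw [hxe, hye]; ring
      have e2 : (A - m * B) * xs + B * (ys - 4 / 5) = 1 := by
        rw [hxs, hys]; field_simp; ring
      rw [e, e2]
      nlinarith [ht0.1, ht0.2]
    rw [hline] at hL
    have hL2 : 1 ≤ xe * (A + B * (me - m)) := by linarith
    have hcoef : 0 < A + B * (me - m) := by
      rw [abs_lt] at h4
      have : |me - m| ≤ 2 * μ := by
        rw [abs_le]; constructor <;> linarith [hm.1, hm.2, hmeIcc.1, hmeIcc.2]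
      have h5 : |B * (me - m)| ≤ 2 * (2 * μ) := by
        rw [abs_mul]
        apply mul_le_mul _ this (abs_nonneg _) (by norm_num)
        rw [abs_le]; constructor <;> linarith [h4.1, h4.2]
      rw [abs_le] at h5
      linarith [h5.1]
    have hxepos : 0 < xe := by
      by_contra hh; push Not at hh; nlinarith
    have hye' : ye = 4 / 5 + me * xe := by linarith
    rw [hye'] at hdisce
    have := ray_le hxepos hdisce
    nlinarith
  rcases hout with h | h
  · apply key (-1 / 4 + μ) (Or.inr rfl)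
    have : m ≠ -1 / 4 + μ := by
      rintro rfl
      have := Aw_lt_p0 hp hw hm (hp.endp _ (Or.inr rfl))
      linarith
    have : m < -1 / 4 + μ := lt_of_le_of_ne hm.2 this
    nlinarith
  · apply key (-1 / 4 - μ) (Or.inl rfl)
    have : m ≠ -1 / 4 - μ := by
      rintro rfl
      have := Aw_lt_p0 hp hw hm (hp.endp _ (Or.inl rfl))
      linarith
    have : -1 / 4 - μ < m := lt_of_le_of_ne hm.1 (Ne.symm this)
    nlinarith

end Pool.Agent.Helper461.HC
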