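import Mathlib
import Pool.Agent.Helper461.HC.Om

open Set Topology Filter

namespace Pool.Agent.Helper461.HC

theorem uniq_B {V : Plane} (hV : V 0 ^ 2 + V 1 ^ 2 ≤ 1) {w : ℝ} (hw : w ∈ Icc (-1 : ℝ) 1)
    (h : w * V 0 - g0 w * V 1 = 1) : V 0 = w ∧ V 1 = -g0 w := by
  have hg := g0_sq hw
  have h1 : (V 0 - w) ^ 2 + (V 1 + g0 w) ^ 2 ≤ 0 := by nlinarith
  constructor
  · have : (V 0 - w) ^ 2 = 0 := le_antisymm (by nlinarith [sq_nonneg (V 1 + g0 w)]) (sq_nonneg _)
    have := pow_eq_zero_iff (two_ne_zero) |>.mp this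
    linarith
  · have : (V 1 + g0 w) ^ 2 = 0 := le_antisymm (by nlinarith [sq_nonneg (V 0 - w)]) (sq_nonneg _)
    have := pow_eq_zero_iff (two_ne_zero) |>.mp this
    linarith

theorem gp_sub_pos {η μ : ℝ} (hp : Par η μ) {w : ℝ} (hw : w ∈ Ioo (-1 : ℝ) 1) :
    0 < gp η w - w * gp1 η w := by
  have hg := g0_pos hw
  have hg1 := g0_le_one w
  have hη := hp.hη
  have hη1 := hp.hη1
  have hz := zz_nonneg η w
  have hz2 := zz_le η w
  have hdl := dl_nonneg η w
  unfold gp gp1
  have h1 : 0 ≤ -w * (-w / g0 w) := by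
    have : -w * (-w / g0 w) = w ^ 2 / g0 w := by ring
    rw [this]; positivity
  have h2 : |w * dl1 η w| ≤ 1 / 4 * η ^ 2 := by
    rw [abs_mul]
    unfold dl1
    have e1 : |w| ≤ 1 := abs_le.mpr ⟨by linarith [hw.1], by linarith [hw.2]⟩
    have e2 : |1 / 32 * (2 * zz η w * -(2 * (w - 3 / 5)))| ≤ 1 / 4 * η ^ 2 := by
      rw [abs_le]
      have : |w - 3 / 5| ≤ 2 := abs_le.mpr ⟨by linarith [hw.1], by linarith [hw.2]⟩
      rw [abs_le] at this
      constructor <;> nlinarith
    calc |w| * |1 / 32 * (2 * zz η w * -(2 * (w - 3 / 5)))| ≤ 1 * (1 / 4 * η ^ 2) :=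
          mul_le_mul e1 e2 (abs_nonneg _) (by norm_num)
      _ = 1 / 4 * η ^ 2 := by ring
  rw [abs_le] at h2
  have h3 : g0 w + -w * (-w / g0 w) = 1 / g0 w := by
    have := g0_sq (Ioo_subset_Icc_self hw)
    field_simp
    nlinarith
  have h4 : 1 ≤ 1 / g0 w := by rw [le_div_iff₀ hg]; linarith
  have h5 : η ^ 2 ≤ 1 := pow_le_one₀ hη.le (by linarith)
  nlinarith [h2.1, h2.2]

theorem gp_end {η μ : ℝ} (hp : Par η μ) {w : ℝ} (hw : w = 1 ∨ w = -1) : gp η w = 0 := by
  have hη := hp.hη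
  have hη1 := hp.hη1
  unfold gp
  rw [dl_zero hη]
  · rcases hw with rfl | rfl <;> simp [g0]
  · rintro ⟨h1, h2⟩
    rcases hw with rfl | rfl <;> linarith

theorem deriv_zero {η μ : ℝ} {V : Plane} (hV : V ∈ CC η μ) {w : ℝ} (hw : w ∈ Ioo (-1 : ℝ) 1)
    (h : w * V 0 + gp η w * V 1 = 1) : V 0 + gp1 η w * V 1 = 0 := by
  have hd : HasDerivAt (fun v : ℝ => v * V 0 + gp η v * V 1) (V 0 + gp1 η w * V 1) w := by
    have h1 : HasDerivAt (fun v : ℝ => v * V 0) (V 0) w := by
      simpa using (hasDerivAt_id w).mul_const (V 0)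
    exact h1.add ((hasDerivAt_gp η hw).mul_const (V 1))
  have hmax : IsLocalMax (fun v : ℝ => v * V 0 + gp η v * V 1) w := by
    filter_upwards [Icc_mem_nhds hw.1 hw.2] with v hv
    rw [h]
    exact hV.1 v hv
  exact hmax.hasDerivAt_eq_zero hd

theorem uniq_T {η μ : ℝ} (hp : Par η μ) {V W : Plane} (hV : V ∈ CC η μ) (hW : W ∈ CC η μ) {w : ℝ}
    (hw : w ∈ Icc (-1 : ℝ) 1) (h1 : w * V 0 + gp η w * V 1 = 1) (h2 : w * W 0 + gp η w * W 1 = 1) :
    V = W := by
  have hVn := norm_CC hV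
  have hWn := norm_CC hW
  by_cases hw' : w ∈ Ioo (-1 : ℝ) 1
  · have d1 := deriv_zero hV hw' h1
    have d2 := deriv_zero hW hw' h2
    have hpos := gp_sub_pos hp hw'
    have k1 : V 1 * (gp η w - w * gp1 η w) = 1 := by
      have : V 0 = -gp1 η w * V 1 := by linarith
      rw [this] at h1; linarith
    have k2 : W 1 * (gp η w - w * gp1 η w) = 1 := by
      have : W 0 = -gp1 η w * W 1 := by linarith
      rw [this] at h2; linarith
    have k3 : V 1 = W 1 := mul_right_cancel₀ hpos.ne' (k1.trans k2.symm)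
    apply plane_ext _ k3
    rw [k3] at d1
    linarith
  · have hwe : w = 1 ∨ w = -1 := by
      rw [mem_Ioo, not_and_or] at hw'
      rcases hw' with h | h
      · right; linarith [hw.1]
      · left; linarith [hw.2]
    rw [gp_end hp hwe] at h1 h2
    have sq1 : w ^ 2 = 1 := by rcases hwe with rfl | rfl <;> norm_num
    have a1 : V 0 = w := by
      have : w * (w * V 0) = w := by rw [show w * V 0 = 1 by linarith]; ring
      nlinarith
    have a2 : W 0 = w := by
      have : w * (w * W 0) = w := by rw [show w * W 0 = 1 by linarith]; ring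
      nlinarith
    have b1 : V 1 = 0 := by
      rw [a1] at hVn
      have : V 1 ^ 2 = 0 := le_antisymm (by linarith) (sq_nonneg _)
      exact pow_eq_zero_iff (two_ne_zero) |>.mp this
    have b2 : W 1 = 0 := by
      rw [a2] at hWn
      have : W 1 ^ 2 = 0 := le_antisymm (by linarith) (sq_nonneg _)
      exact pow_eq_zero_iff (two_ne_zero) |>.mp this
    exact plane_ext (by rw [a1, a2]) (by rw [b1, b2])

theorem uniq_S {η μ : ℝ} (hp : Par η μ) {V : Plane} (hV : V ∈ CC η μ) {w m : ℝ}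
    (hz : (w, m) ∈ KS η μ) (h : LS η w m V = 1) :
    V 0 = 1 / Aw η w m ∧ V 1 = 4 / 5 + m * (1 / Aw η w m) := by
  have hVn := norm_CC hV
  have hout : ¬ ((-1 / 4 + μ) * V 0 < V 1 - 4 / 5 ∨ V 1 - 4 / 5 < (-1 / 4 - μ) * V 0) := by
    intro ho
    have := out_lt hp hz hVn ho
    linarith
  rw [not_or] at hout
  obtain ⟨ho1, ho2⟩ := hout
  push Not at ho1 ho2
  have hμ := hp.hμ
  have hV0 : 0 < V 0 := by
    have h0 : 0 ≤ V 0 := by
      by_contra hneg; push Not at hneg; nlinarith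
    rcases eq_or_lt_of_le h0 with he | he
    · exfalso
      rw [← he] at ho1 ho2
      have : V 1 - 4 / 5 = 0 := by linarith
      unfold LS at h
      rw [← he, this] at h
      norm_num at h
    · exact he
  obtain ⟨⟨hw, hm⟩, hA⟩ := id hz
  simp only at hw hm hA
  obtain ⟨hD, h2, h3, h4⟩ := hp.box w hw m hm
  set m' := (V 1 - 4 / 5) / V 0 with hm'
  have hV1 : V 1 - 4 / 5 = m' * V 0 := by rw [hm']; field_simp
  have hm'I : m' ∈ Icc (-1 / 4 - μ) (-1 / 4 + μ) := by
    constructor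
    · rw [hm', le_div_iff₀ hV0]; exact ho2
    · rw [hm', div_le_iff₀ hV0]; exact ho1
  have e1 : V 0 * (Aw η w m + A1w η w m * (m' - m)) = 1 := by
    unfold LS at h
    rw [hV1] at h
    linarith
  have hmm : m' = m := by
    by_contra hne
    have htan := Aw_tangent hp hw hm hm'I hne
    rcases le_or_gt (p0 m') (Aw η w m') with hle | hgt
    · have := hV.2.2 (w, m') ⟨⟨hw, hm'I⟩, hle⟩
      simp only at this
      unfold LS at this
      rw [hV1] at this
      nlinarith
    · have hn : V 0 ^ 2 + (4 / 5 + m' * V 0) ^ 2 ≤ 1 := by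
        have : V 1 = 4 / 5 + m' * V 0 := by linarith
        rw [← this]; exact hVn
      have := ray_le hV0 hn
      nlinarith
  rw [hmm] at e1 hV1
  have e2 : V 0 * Aw η w m = 1 := by rw [← e1]; ring
  have e3 : V 0 = 1 / Aw η w m := by
    rw [eq_div_iff (by linarith)]; exact e2
  exact ⟨e3, by rw [← e3]; linarith⟩

theorem strict_CC {η μ : ℝ} (hp : Par η μ) : StrictConvex ℝ (CC η μ) := by
  intro V hV W hW hne a b ha hb hab
  have hVn := norm_CC hV
  have hWn := norm_CC hW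
  have hsub : OO η μ ⊆ interior (CC η μ) := interior_maximal (OO_sub_CC η μ) (isOpen_OO hp)
  apply hsub
  have comb : ∀ p q : ℝ, p ≤ 1 → q ≤ 1 → ¬ (p = 1 ∧ q = 1) → a * p + b * q < 1 := by
    intro p q h1 h2 h3
    by_contra hge
    push Not at hge
    apply h3
    constructor
    · by_contra hh
      have : p < 1 := lt_of_le_of_ne h1 hh
      nlinarith
    · by_contra hh
      have : q < 1 := lt_of_le_of_ne h2 hh
      nlinarith
  refine ⟨fun w hw => ?_, fun w hw => ?_, fun z hz => ?_⟩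
  · have := comb _ _ (hV.1 w hw) (hW.1 w hw) (fun ⟨e1, e2⟩ => hne (uniq_T hp hV hW hw e1 e2))
    simp only [PiLp.add_apply, PiLp.smul_apply, smul_eq_mul]
    linarith
  · have := comb _ _ (hV.2.1 w hw) (hW.2.1 w hw) (fun ⟨e1, e2⟩ => by
      obtain ⟨a1, a2⟩ := uniq_B hVn hw e1
      obtain ⟨b1, b2⟩ := uniq_B hWn hw e2
      exact hne (plane_ext (a1.trans b1.symm) (a2.trans b2.symm)))
    simp only [PiLp.add_apply, PiLp.smul_apply, smul_eq_mul]
    linarith
  · have := comb _ _ (hV.2.2 z hz) (hW.2.2 z hz) (fun ⟨e1, e2⟩ => by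
      obtain ⟨a1, a2⟩ := uniq_S hp hV hz e1
      obtain ⟨b1, b2⟩ := uniq_S hp hW hz e2
      exact hne (plane_ext (a1.trans b1.symm) (a2.trans b2.symm)))
    unfold LS at this ⊢
    simp only [PiLp.add_apply, PiLp.smul_apply, smul_eq_mul]
    have hb' : b = 1 - a := by linarith
    subst hb'
    linarith

theorem hilbert_OO {η μ : ℝ} (hp : Par η μ) : IsHilbertPlane (OO η μ) where
  nonempty := ⟨FF, FF_mem hp⟩
  isOpen := isOpen_OO hp
  bounded := bounded_OO η μ
  convex := convex_OO η μ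
  strict := by rw [closure_OO hp]; exact strict_CC hp

/-- lower contact points -/
theorem low_mem {η μ : ℝ} (hp : Par η μ) {w : ℝ} (hw : w ∈ Icc (-1 : ℝ) 1) : pt w (-g0 w) ∈ CC η μ := by
  have hg := g0_sq hw
  have hgn := g0_nonneg w
  have hn : (pt w (-g0 w)) 0 ^ 2 + (pt w (-g0 w)) 1 ^ 2 ≤ 1 := by
    rw [pt_zero, pt_one]; nlinarith
  refine ⟨fun v hv => ?_, fun v hv => cauchy_le' hn hv, fun z hz => ?_⟩
  · rw [pt_zero, pt_one]
    have h1 := gp_nonneg η v
    nlinarith [hv.1, hv.2, hw.1, hw.2, mul_nonneg h1 hgn, mul_nonneg (sub_nonneg.mpr hv.2) (sub_nonneg.mpr hw.1),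
      mul_nonneg (sub_nonneg.mpr hv.1) (sub_nonneg.mpr hw.2), sq_nonneg (v - w)]
  · apply le_of_lt
    apply out_lt hp (w := z.1) (m := z.2) hz hn
    right
    rw [pt_zero, pt_one]
    have hμ := hp.hμ
    have hμ1 := hp.hμ1
    have := hw.2
    have := hw.1
    nlinarith

theorem not_quadratic {η μ : ℝ} (hp : Par η μ) (a b c d e g : ℝ) :
    OO η μ ≠ {V : Plane | a * V 0 ^ 2 + b * V 0 * V 1 + c * V 1 ^ 2 + d * V 0 + e * V 1 + g < 0} := by
  intro heq
  set q : Plane → ℝ := fun V => a * V 0 ^ 2 + b * V 0 * V 1 + c * V 1 ^ 2 + d * V 0 + e * V 1 + g with hq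
  have hqc : Continuous q := by rw [hq]; fun_prop
  have hzero : ∀ w ∈ Icc (-1 : ℝ) 1, q (pt w (-g0 w)) = 0 := by
    intro w hw
    have h1 : pt w (-g0 w) ∈ closure (OO η μ) := by rw [closure_OO hp]; exact low_mem hp hw
    have h2 : q (pt w (-g0 w)) ≤ 0 := by
      have : closure (OO η μ) ⊆ {V | q V ≤ 0} := by
        apply closure_minimal _ (isClosed_le hqc continuous_const)
        intro V hV
        rw [heq] at hV
        have hV' : q V < 0 := hV
        exact hV'.le
      exact this h1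
    have h3 : pt w (-g0 w) ∉ OO η μ := by
      intro h
      have := norm_OO h
      rw [pt_zero, pt_one] at this
      have := g0_sq hw
      nlinarith
    have h4 : 0 ≤ q (pt w (-g0 w)) := by
      by_contra hlt
      push Not at hlt
      apply h3
      rw [heq]
      exact hlt
    exact le_antisymm h2 h4
  have g00 : g0 0 = 1 := by simp [g0]
  have g1 : g0 (3 / 5) = 4 / 5 := by
    unfold g0
    rw [show (1 - (3 / 5 : ℝ) ^ 2) = (4 / 5) ^ 2 by norm_num]
    exact Real.sqrt_sq (by norm_num)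
  have g2 : g0 (-(3 / 5)) = 4 / 5 := by
    unfold g0
    rw [show (1 - (-(3 / 5) : ℝ) ^ 2) = (4 / 5) ^ 2 by norm_num]
    exact Real.sqrt_sq (by norm_num)
  have g3 : g0 (4 / 5) = 3 / 5 := by
    unfold g0
    rw [show (1 - (4 / 5 : ℝ) ^ 2) = (3 / 5) ^ 2 by norm_num]
    exact Real.sqrt_sq (by norm_num)
  have g4 : g0 (-(4 / 5)) = 3 / 5 := by
    unfold g0
    rw [show (1 - (-(4 / 5) : ℝ) ^ 2) = (3 / 5) ^ 2 by norm_num]
    exact Real.sqrt_sq (by norm_num)
  have z0 := hzero 0 ⟨by norm_num, by norm_num⟩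
  have z1 := hzero (3 / 5) ⟨by norm_num, by norm_num⟩
  have z2 := hzero (-(3 / 5)) ⟨by norm_num, by norm_num⟩
  have z3 := hzero (4 / 5) ⟨by norm_num, by norm_num⟩
  have z4 := hzero (-(4 / 5)) ⟨by norm_num, by norm_num⟩
  rw [g00] at z0
  rw [g1] at z1
  rw [g2] at z2
  rw [g3] at z3
  rw [g4] at z4
  simp only [hq, pt_zero, pt_one] at z0 z1 z2 z3 z4
  have hb : b = 0 := by linarith
  have hd : d = 0 := by linarith
  have hc : c = a := by linarith
  have hg : g = -a := by linarith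
  have he : e = 0 := by linarith
  have hF : q FF < 0 := by
    have := FF_mem hp
    rw [heq] at this
    exact this
  simp only [hq, FF0, FF1] at hF
  rw [hb, hd, hc, hg, he] at hF
  have ha : 0 < a := by linarith
  -- a point of the disc that was cut off
  have hη := hp.hη
  set κ := (4 / 5 : ℝ) * (η ^ 4 / 32) with hκ
  have hκ0 : 0 < κ := by positivity
  set s := 1 / (1 + κ) with hs
  have hs0 : 0 < s := by positivity
  have hs1 : s < 1 := by rw [hs, div_lt_one (by positivity)]; linarith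
  have hmem : pt (s * (3 / 5)) (s * (4 / 5)) ∈ OO η μ := by
    rw [heq]
    show q _ < 0
    simp only [hq, pt_zero, pt_one]
    rw [hb, hd, hc, hg, he]
    have : s ^ 2 < 1 := by nlinarith
    nlinarith
  have h1 := hmem.1 (3 / 5) ⟨by norm_num, by norm_num⟩
  rw [pt_zero, pt_one] at h1
  have hgp : gp η (3 / 5) = 4 / 5 + η ^ 4 / 32 := by
    unfold gp dl zz
    rw [g1, sub_self, max_eq_right (by nlinarith [sq_nonneg η])]
    ring
  rw [hgp] at h1
  have : 3 / 5 * (s * (3 / 5)) + (4 / 5 + η ^ 4 / 32) * (s * (4 / 5)) = s * (1 + κ) := by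
    rw [hκ]; ring
  rw [this, hs, one_div, inv_mul_cancel₀ (by positivity)] at h1
  exact lt_irrefl _ h1

end Pool.Agent.Helper461.HC
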