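import Mathlib
import Pool.Agent.Helper461.HC.Str
import Pool.Agent.Helper461.HC.Alg

open Set Topology Filter

namespace Pool.Agent.Helper461.HC

/-- the quadric -/
def OnQ (V : Plane) : Prop := 9 * V 0 ^ 2 + 16 * V 1 ^ 2 - 40 * V 1 + 16 = 0

noncomputable def um (w : ℝ) (V : Plane) : ℝ := 1 - w * V 0 - (-g0 w) * V 1
noncomputable def up (η w : ℝ) (V : Plane) : ℝ := 1 - w * V 0 - gp η w * V 1
noncomputable def DW (η w : ℝ) (V : Plane) : ℝ := um w V / up η w V

theorem isAff_um (w : ℝ) : IsAff (um w) := isAff_lin 1 w (-g0 w)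
theorem isAff_up (η w : ℝ) : IsAff (up η w) := isAff_lin 1 w (gp η w)

theorem up_pos {η μ : ℝ} {V : Plane} (hV : V ∈ OO η μ) {w : ℝ} (hw : w ∈ Icc (-1 : ℝ) 1) :
    0 < up η w V := by
  have := hV.1 w hw
  unfold up; linarith

theorem um_pos {η μ : ℝ} {V : Plane} (hV : V ∈ OO η μ) {w : ℝ} (hw : w ∈ Icc (-1 : ℝ) 1) :
    0 < um w V := by
  have := hV.2.1 w hw
  unfold um; linarith

structure QF (x y h : ℝ) : Prop where
  hh : h = (5 - 4 * y) / 3
  hsq : h ^ 2 = 1 - x ^ 2
  y1 : 1 / 2 ≤ y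
  y2 : y < 5 / 7
  hy : y < h
  x1 : |x| < 7 / 10

theorem quad_facts {x y : ℝ} (hq : 9 * x ^ 2 + 16 * y ^ 2 - 40 * y + 16 = 0) (hn : x ^ 2 + y ^ 2 < 1) :
    QF x y ((5 - 4 * y) / 3) := by
  have hy1 : y < 1 := by nlinarith [sq_nonneg x]
  have y1 : 1 / 2 ≤ y := by
    by_contra h
    push Not at h
    nlinarith [sq_nonneg x]
  have hsq : ((5 - 4 * y) / 3) ^ 2 = 1 - x ^ 2 := by nlinarith
  have hy : y < (5 - 4 * y) / 3 := by
    by_contra h
    push Not at h
    nlinarith
  have y2 : y < 5 / 7 := by linarith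
  refine ⟨rfl, hsq, y1, y2, hy, ?_⟩
  rw [abs_lt]
  constructor <;> nlinarith

theorem D_at_x {η μ : ℝ} {X : Plane} (hX : X ∈ OO η μ) (hq : OnQ X) :
    X 0 ∈ Ioo (-1 : ℝ) 1 ∧ g0 (X 0) = (5 - 4 * X 1) / 3 ∧
    ((5 - 4 * X 1) / 3 + X 1) / ((5 - 4 * X 1) / 3 - X 1) ≤ DW η (X 0) X := by
  have hn := norm_OO hX
  have F := quad_facts hq hn
  obtain ⟨_, hsq, y1, y2, hy, x1⟩ := F
  rw [abs_lt] at x1
  have hxI : X 0 ∈ Ioo (-1 : ℝ) 1 := ⟨by linarith [x1.1], by linarith [x1.2]⟩
  have hg : g0 (X 0) = (5 - 4 * X 1) / 3 := by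
    unfold g0
    rw [← hsq]
    exact Real.sqrt_sq (by linarith)
  refine ⟨hxI, hg, ?_⟩
  have hup := up_pos hX (Ioo_subset_Icc_self hxI)
  have hdl := dl_nonneg η (X 0)
  unfold DW
  rw [div_le_div_iff₀ (by linarith) hup]
  unfold um up gp
  rw [hg]
  set y := X 1
  set x := X 0
  set h := (5 - 4 * y) / 3
  have e : (h + y) * (1 - x * x - (h + dl η x) * y) = (h + y) * (h * (h - y)) - (h + y) * dl η x * y := by
    have : 1 - x * x = h ^ 2 := by rw [hsq]; ring
    rw [this]; ring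
  have e2 : (1 - x * x - -h * y) * (h - y) = h * (h + y) * (h - y) := by
    have : 1 - x * x = h ^ 2 := by rw [hsq]; ring
    rw [this]; ring
  rw [e, e2]
  have : 0 ≤ (h + y) * dl η x * y := by
    apply mul_nonneg (mul_nonneg (by linarith) hdl) (by linarith)
  linarith

theorem exists_max {η μ : ℝ} (hp : Par η μ) {X : Plane} (hX : X ∈ OO η μ) (hq : OnQ X) :
    ∃ w ∈ Ioo (-1 : ℝ) 1, (∀ v ∈ Icc (-1 : ℝ) 1, DW η v X ≤ DW η w X) ∧
      ((5 - 4 * X 1) / 3 + X 1) / ((5 - 4 * X 1) / 3 - X 1) ≤ DW η w X := by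
  have hn := norm_OO hX
  have F := quad_facts hq hn
  obtain ⟨hxI, hgx, hDx⟩ := D_at_x hX hq
  have hcont : ContinuousOn (fun w => DW η w X) (Icc (-1 : ℝ) 1) := by
    have h1 := cont_g0
    have h2 := cont_gp η
    unfold DW
    apply ContinuousOn.div
    · apply Continuous.continuousOn; unfold um; fun_prop
    · apply Continuous.continuousOn; unfold up; fun_prop
    · intro w hw; exact (up_pos hX hw).ne'
  obtain ⟨w, hw, hmax⟩ := isCompact_Icc.exists_isMaxOn ⟨(0:ℝ), by norm_num, by norm_num⟩ hcont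
  have hm : ∀ v ∈ Icc (-1 : ℝ) 1, DW η v X ≤ DW η w X := fun v hv => hmax hv
  have hge := le_trans hDx (hm _ (Ioo_subset_Icc_self hxI))
  have hone : 1 < ((5 - 4 * X 1) / 3 + X 1) / ((5 - 4 * X 1) / 3 - X 1) := by
    rw [one_lt_div (by linarith [F.hy])]
    linarith [F.y1]
  have hends : ∀ v, v = 1 ∨ v = -1 → DW η v X = 1 := by
    intro v hv
    have e1 := gp_end hp hv
    have e2 : g0 v = 0 := by rcases hv with rfl | rfl <;> simp [g0]
    have hvI : v ∈ Icc (-1 : ℝ) 1 := by rcases hv with rfl | rfl <;> constructor <;> norm_num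
    have := up_pos hX hvI
    unfold DW
    rw [div_eq_one_iff_eq this.ne']
    unfold um up
    rw [e1, e2]; ring
  refine ⟨w, ⟨lt_of_le_of_ne hw.1 ?_, lt_of_le_of_ne hw.2 ?_⟩, hm, hge⟩
  · rintro h
    have := hends w (Or.inr h.symm)
    linarith
  · rintro h
    have := hends w (Or.inl h)
    linarith

/-- if the maximiser is outside the perturbed window, it equals the first coordinate -/
theorem max_out {η μ : ℝ} (hp : Par η μ) {X : Plane} (hX : X ∈ OO η μ) (hq : OnQ X) {w : ℝ}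
    (hw : w ∈ Ioo (-1 : ℝ) 1)
    (hge : ((5 - 4 * X 1) / 3 + X 1) / ((5 - 4 * X 1) / 3 - X 1) ≤ DW η w X)
    (hout : w ∉ Icc (3 / 5 - η) (3 / 5 + η)) :
    w = X 0 ∧ g0 w = (5 - 4 * X 1) / 3 ∧
      DW η w X = ((5 - 4 * X 1) / 3 + X 1) / ((5 - 4 * X 1) / 3 - X 1) := by
  have hn := norm_OO hX
  have F := quad_facts hq hn
  obtain ⟨hxI, hgx, hDx⟩ := D_at_x hX hq
  have hdl := dl_zero hp.hη hout
  have hup := up_pos hX (Ioo_subset_Icc_self hw)
  have hg := g0_sq (Ioo_subset_Icc_self hw)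
  have hid := cmp_id (δ := (0:ℝ)) (y := X 1) F.hsq hg
  have hge' := hge
  unfold DW at hge'
  rw [div_le_div_iff₀ (by linarith [F.hy]) hup] at hge'
  unfold um up gp at hge'
  rw [hdl] at hge'
  have h1 : X 1 * ((X 0 - w) ^ 2 + ((5 - 4 * X 1) / 3 - g0 w) ^ 2) ≤ 0 := by
    have e : X 1 * ((X 0 - w) ^ 2 + ((5 - 4 * X 1) / 3 - g0 w) ^ 2) =
        X 1 * ((X 0 - w) ^ 2 + ((5 - 4 * X 1) / 3 - g0 w) ^ 2 - ((5 - 4 * X 1) / 3 + X 1) * 0) := by ring
    rw [e, ← hid]
    linarith
  have hy0 : 0 < X 1 := by linarith [F.y1]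
  have h2 : (X 0 - w) ^ 2 = 0 := by
    apply le_antisymm _ (sq_nonneg _)
    nlinarith [sq_nonneg ((5 - 4 * X 1) / 3 - g0 w)]
  have h3 : ((5 - 4 * X 1) / 3 - g0 w) ^ 2 = 0 := by
    apply le_antisymm _ (sq_nonneg _)
    nlinarith [sq_nonneg (X 0 - w)]
  have h2' := pow_eq_zero_iff (two_ne_zero) |>.mp h2
  have h3' := pow_eq_zero_iff (two_ne_zero) |>.mp h3
  have e1 : w = X 0 := by linarith
  have e2 : g0 w = (5 - 4 * X 1) / 3 := by linarith
  refine ⟨e1, e2, ?_⟩
  unfold DW um up gp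
  rw [hdl, e2, ← e1]
  have hsq : 1 - w * w = ((5 - 4 * X 1) / 3) ^ 2 := by rw [F.hsq, ← e1]; ring
  rw [hsq]
  set h := (5 - 4 * X 1) / 3
  have hh : 0 < h := by linarith [F.hy]
  have hd : h - X 1 ≠ 0 := by linarith [F.hy]
  have hd2 : h ^ 2 - (h + 0) * X 1 ≠ 0 := by
    have : h ^ 2 - (h + 0) * X 1 = h * (h - X 1) := by ring
    rw [this]; exact mul_ne_zero hh.ne' hd
  rw [div_eq_div_iff hd2 hd]
  ring

/-- the upper contact point -/
noncomputable def cb (η w : ℝ) : ℝ := 1 / (gp η w - w * gp1 η w)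
noncomputable def ca (η w : ℝ) : ℝ := -gp1 η w * cb η w

theorem cb_pos {η μ : ℝ} (hp : Par η μ) {w : ℝ} (hw : w ∈ Ioo (-1 : ℝ) 1) : 0 < cb η w := by
  have := gp_sub_pos hp hw
  unfold cb; positivity

theorem cb_mul {η μ : ℝ} (hp : Par η μ) {w : ℝ} (hw : w ∈ Ioo (-1 : ℝ) 1) :
    cb η w * (gp η w - w * gp1 η w) = 1 := by
  have := gp_sub_pos hp hw
  unfold cb
  rw [one_div, inv_mul_cancel₀ this.ne']

theorem contact_T {η μ : ℝ} (hp : Par η μ) {w : ℝ} (hw : w ∈ Ioo (-1 : ℝ) 1) :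
    ∀ v ∈ Icc (-1 : ℝ) 1, v * ca η w + gp η v * cb η w ≤ 1 := by
  intro v hv
  have h1 := gp_tangent (η := η) hw hv
  have h2 := cb_mul hp hw
  have h3 := cb_pos hp hw
  have h4 : gp η v * cb η w ≤ (gp η w + gp1 η w * (v - w)) * cb η w :=
    mul_le_mul_of_nonneg_right h1 h3.le
  unfold ca
  nlinarith

theorem contact_B {η μ : ℝ} (hp : Par η μ) {w : ℝ} (hw : w ∈ Ioo (-1 : ℝ) 1) :
    ∀ v ∈ Icc (-1 : ℝ) 1, v * ca η w - g0 v * cb η w ≤ 1 := by
  intro v hv
  have h1 := contact_T hp hw v hv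
  have h2 := cb_pos hp hw
  have h3 := g0_nonneg v
  have h4 := gp_nonneg η v
  nlinarith [mul_nonneg h3 h2.le, mul_nonneg h4 h2.le]

theorem contact_norm {η μ : ℝ} (hp : Par η μ) {w : ℝ} (hw : w ∈ Ioo (-1 : ℝ) 1) :
    ca η w ^ 2 + cb η w ^ 2 ≤ 1 := by
  have := norm_TB (η := η) (V := pt (ca η w) (cb η w))
    (by intro v hv; rw [pt_zero, pt_one]; exact contact_T hp hw v hv)
    (by intro v hv; rw [pt_zero, pt_one]; exact contact_B hp hw v hv)
  rwa [pt_zero, pt_one] at this

theorem contact_one {η μ : ℝ} (hp : Par η μ) {w : ℝ} (hw : w ∈ Ioo (-1 : ℝ) 1) :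
    w * ca η w + gp η w * cb η w = 1 := by
  have := cb_mul hp hw
  unfold ca
  linarith

theorem contact_mem {η μ : ℝ} (hp : Par η μ) {X : Plane} (hX : X ∈ OO η μ) (hq : OnQ X) {w : ℝ}
    (hw : w ∈ Ioo (-1 : ℝ) 1)
    (hge : ((5 - 4 * X 1) / 3 + X 1) / ((5 - 4 * X 1) / 3 - X 1) ≤ DW η w X) :
    pt (ca η w) (cb η w) ∈ CC η μ := by
  have hn := contact_norm hp hw
  have hμ := hp.hμ
  have hμ1 := hp.hμ1
  have hη := hp.hη
  have hη1 := hp.hη1
  have hwI := Ioo_subset_Icc_self hw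
  refine ⟨?_, ?_, fun z hz => ?_⟩
  · intro v hv; rw [pt_zero, pt_one]; exact contact_T hp hw v hv
  · intro v hv; rw [pt_zero, pt_one]; exact contact_B hp hw v hv
  apply le_of_lt
  apply out_lt hp (w := z.1) (m := z.2) hz
  · rw [pt_zero, pt_one]; exact hn
  rw [pt_zero, pt_one]
  by_cases hneg : ca η w < 0
  · rcases lt_or_ge ((-1 / 4 + μ) * ca η w) (cb η w - 4 / 5) with h | h
    · exact Or.inl h
    · right; nlinarith
  push Not at hneg
  left
  by_cases hout : w ∈ Icc (3 / 5 - η) (3 / 5 + η)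
  · have h1 := contact_one hp hw
    have hg := g0_sq hwI
    have hgn := g0_nonneg w
    have hdl := dl_le η w
    have hdn := dl_nonneg η w
    have hb := cb_pos hp hw
    have hη4 : η ^ 4 ≤ (1 / 100) ^ 4 := pow_le_pow_left₀ hη.le hη1 4
    obtain ⟨h5, h6⟩ := al_close h1 hg hn hdn hb (by linarith)
    have hw1 : 59 / 100 ≤ w := by linarith [hout.1]
    have hw2 : w ≤ 61 / 100 := by linarith [hout.2]
    exact al_outw h5 h6 hw1 (al_g0 hg hgn hw1 hw2).1 hμ1
  · obtain ⟨e1, e2, -⟩ := max_out hp hX hq hw hge hout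
    have F := quad_facts hq (norm_OO hX)
    have hdl := dl_zero hη hout
    have hdl1 := dl1_zero hη hout
    have hg := g0_sq hwI
    have hgp := g0_pos hw
    have eb : cb η w = g0 w := by
      unfold cb gp gp1
      rw [hdl, hdl1]
      have hk : g0 w + 0 - w * (-w / g0 w + 0) = 1 / g0 w := by
        field_simp
        nlinarith
      rw [hk, one_div_one_div]
    have ea : ca η w = w := by
      unfold ca
      rw [eb]
      unfold gp1
      rw [hdl1]
      field_simp
      ring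
    rw [ea] at hneg ⊢
    rw [eb, e2, e1]
    rw [e1] at hneg
    have hy2 := F.y2
    have hx1 := F.x1
    rw [abs_lt] at hx1
    have hs := F.hsq
    -- h - 4/5 > (-1/4+μ) x for x ≥ 0
    exact al_outx hneg hs (by linarith) hμ1

theorem stationary {η μ : ℝ} {X : Plane} (hX : X ∈ OO η μ) {w : ℝ}
    (hw : w ∈ Ioo (-1 : ℝ) 1) (hmax : ∀ v ∈ Icc (-1 : ℝ) 1, DW η v X ≤ DW η w X) :
    (-(X 0) + (-w / g0 w) * X 1) * up η w X - um w X * (-(X 0) - gp1 η w * X 1) = 0 := by
  have hup := up_pos hX (Ioo_subset_Icc_self hw)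
  have d1 : HasDerivAt (fun v => um v X) (-(X 0) + (-w / g0 w) * X 1) w := by
    unfold um
    have h1 : HasDerivAt (fun v : ℝ => 1 - v * X 0) (-(X 0)) w := by
      have := ((hasDerivAt_id w).mul_const (X 0)).const_sub 1
      exact this.congr_deriv (by simp)
    have h2 := ((hasDerivAt_g0 hw).neg.mul_const (X 1))
    have := h1.sub h2
    exact this.congr_deriv (by ring)
  have d2 : HasDerivAt (fun v => up η v X) (-(X 0) - gp1 η w * X 1) w := by
    unfold up
    have h1 : HasDerivAt (fun v : ℝ => 1 - v * X 0) (-(X 0)) w := by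
      have := ((hasDerivAt_id w).mul_const (X 0)).const_sub 1
      exact this.congr_deriv (by simp)
    exact h1.sub ((hasDerivAt_gp η hw).mul_const (X 1))
  have d3 := d1.div d2 hup.ne'
  have hloc : IsLocalMax (fun v => um v X / up η v X) w := by
    filter_upwards [Icc_mem_nhds hw.1 hw.2] with v hv
    exact hmax v hv
  have := hloc.hasDerivAt_eq_zero d3
  rw [div_eq_zero_iff] at this
  rcases this with h | h
  · exact h
  · exact absurd h (pow_ne_zero 2 hup.ne')

theorem collinear {η μ : ℝ} (hp : Par η μ) {X : Plane} (hX : X ∈ OO η μ) (hy : 0 < X 1) {w : ℝ}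
    (hw : w ∈ Ioo (-1 : ℝ) 1) (hmax : ∀ v ∈ Icc (-1 : ℝ) 1, DW η v X ≤ DW η w X) :
    (X 0 - w) * (g0 w + cb η w) = (g0 w + X 1) * (ca η w - w) := by
  have hst := stationary hX hw hmax
  have hg0 := g0_pos hw
  have hg := g0_sq (Ioo_subset_Icc_self hw)
  have hb := cb_mul hp hw
  unfold um up at hst
  unfold ca
  set x := X 0
  set y := X 1
  set g := g0 w
  set G := gp η w
  set G' := gp1 η w
  set b := cb η w
  have E : (-(g * x) - w * y) * (1 - w * x - G * y) - g * (1 - w * x - -g * y) * (-x - G' * y) = 0 := by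
    have : (-(g * x) - w * y) * (1 - w * x - G * y) - g * (1 - w * x - -g * y) * (-x - G' * y) =
        g * ((-x + -w / g * y) * (1 - w * x - G * y) - (1 - w * x - -g * y) * (-x - G' * y)) := by
      have hgne : g ≠ 0 := hg0.ne'
      field_simp
      ring
    rw [this, hst, mul_zero]
  have hS : g * G * x + (x - w) + w * G * y + g * G' * (1 - w * x) + g ^ 2 * G' * y = 0 := by
    have : y * (g * G * x + (x - w) + w * G * y + g * G' * (1 - w * x) + g ^ 2 * G' * y) = 0 := by
      linear_combination E - x * y * hg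
    rcases mul_eq_zero.mp this with h | h
    · exact absurd h hy.ne'
    · exact h
  linear_combination b * hS - b * y * G' * hg - ((x - w) * g + (g + y) * w) * hb

/-- the distance to the line -/
theorem dist_line {η μ : ℝ} (hp : Par η μ) {X : Plane} (hX : X ∈ OO η μ) (hq : OnQ X) :
    ∃ w ∈ Ioo (-1 : ℝ) 1, (∀ v ∈ Icc (-1 : ℝ) 1, DW η v X ≤ DW η w X) ∧
      ((5 - 4 * X 1) / 3 + X 1) / ((5 - 4 * X 1) / 3 - X 1) ≤ DW η w X ∧
      (∀ Z ∈ OO η μ, Z 1 = 0 → Real.log (DW η w X) ≤ 2 * hdist (OO η μ) X Z) ∧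
      ∃ Y ∈ OO η μ, Y 1 = 0 ∧ 2 * hdist (OO η μ) X Y = Real.log (DW η w X) := by
  have hΩ := hilbert_OO hp
  obtain ⟨w, hw, hmax, hge⟩ := exists_max hp hX hq
  have hwI := Ioo_subset_Icc_self hw
  have hup := up_pos hX hwI
  have hum := um_pos hX hwI
  have F := quad_facts hq (norm_OO hX)
  have hy : 0 < X 1 := by linarith [F.y1]
  refine ⟨w, hw, hmax, hge, ?_, ?_⟩
  · intro Z hZ hZ1
    have h1 := funk_ge hΩ hX hZ (isAff_um w) (fun V hV => um_pos hV hwI)
    have h2 := funk_ge hΩ hZ hX (isAff_up η w) (fun V hV => up_pos hV hwI)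
    have hzu : um w Z = up η w Z := by unfold um up; rw [hZ1]; ring
    have hz := up_pos hZ hwI
    rw [hzu, Real.log_div hum.ne' hz.ne'] at h1
    rw [Real.log_div hz.ne' hup.ne'] at h2
    rw [hdist_eq hΩ hX hZ]
    unfold DW
    rw [Real.log_div hum.ne' hup.ne']
    linarith
  · have hcol := collinear hp hX hy hw hmax
    have hJ := contact_mem hp hX hq hw hge
    have hI := low_mem hp hwI
    have hg := g0_pos hw
    have hb := cb_pos hp hw
    set g := g0 w with hgdef
    set b := cb η w with hbdef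
    set a := ca η w with hadef
    have hgb : 0 < g + b := by linarith
    set t := w + g / (g + b) * (a - w) with ht
    have hYmem : pt t 0 ∈ OO η μ := by
      have hne : pt w (-g) ≠ pt a b := by
        intro h
        have := congrArg (fun V : Plane => V 1) h
        simp only [pt_one] at this
        linarith
      have hs := strict_CC hp hI hJ hne (a := b / (g + b)) (b := g / (g + b)) (by positivity)
        (by positivity) (by field_simp; ring)
      have hint : interior (CC η μ) = OO η μ := by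
        rw [← closure_OO hp]; exact interior_closure_eq hΩ
      rw [hint] at hs
      have e : (b / (g + b)) • pt w (-g) + (g / (g + b)) • pt a b = pt t 0 := by
        apply plane_ext
        · simp only [PiLp.add_apply, PiLp.smul_apply, smul_eq_mul, pt_zero]
          rw [ht]; field_simp; ring
        · simp only [PiLp.add_apply, PiLp.smul_apply, smul_eq_mul, pt_one]
          field_simp; ring
      rwa [e] at hs
    have hxt : (X 0 - t) * (g + b) = X 1 * (a - w) := by
      rw [ht]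
      have : (X 0 - (w + g / (g + b) * (a - w))) * (g + b) = (X 0 - w) * (g + b) - g * (a - w) := by
        field_simp
        ring
      rw [this, hcol]; ring
    have hx : X 0 = t + X 1 * (a - w) / (g + b) := by
      field_simp
      linarith
    refine ⟨pt t 0, hYmem, by rw [pt_one], ?_⟩
    have f1 := funk_of_support hΩ hX hYmem (isAff_um w) (fun V hV => um_pos hV hwI)
      (s := (X 1 + g) / X 1) (by positivity)
    have e1 : X + ((X 1 + g) / X 1) • (pt t 0 - X) = pt w (-g) := by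
      apply plane_ext
      · simp only [PiLp.add_apply, PiLp.smul_apply, PiLp.sub_apply, smul_eq_mul, pt_zero]
        rw [hx, ht]
        field_simp
        ring
      · simp only [PiLp.add_apply, PiLp.smul_apply, PiLp.sub_apply, smul_eq_mul, pt_one]
        field_simp
        ring
    rw [e1] at f1
    have f1' := f1 (by rw [closure_OO hp]; exact hI) (by
      unfold um; rw [pt_zero, pt_one]; have := g0_sq hwI; nlinarith)
    have f2 := funk_of_support hΩ hYmem hX (isAff_up η w) (fun V hV => up_pos hV hwI)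
      (s := b / X 1) (by positivity)
    have e2 : pt t 0 + (b / X 1) • (X - pt t 0) = pt a b := by
      apply plane_ext
      · simp only [PiLp.add_apply, PiLp.smul_apply, PiLp.sub_apply, smul_eq_mul, pt_zero]
        rw [hx, ht]
        field_simp
        ring
      · simp only [PiLp.add_apply, PiLp.smul_apply, PiLp.sub_apply, smul_eq_mul, pt_one]
        field_simp
        ring
    rw [e2] at f2
    have f2' := f2 (by rw [closure_OO hp]; exact hJ) (by
      unfold up; rw [pt_zero, pt_one]; have := contact_one hp hw; linarith)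
    rw [hdist_eq hΩ hX hYmem, f1', f2']
    have hzu : um w (pt t 0) = up η w (pt t 0) := by unfold um up; rw [pt_one]; ring
    have hz := up_pos hYmem hwI
    rw [hzu, Real.log_div hum.ne' hz.ne', Real.log_div hz.ne' hup.ne']
    unfold DW
    rw [Real.log_div hum.ne' hup.ne']
    ring

end Pool.Agent.Helper461.HC
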