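import Mathlib
import Pool.Agent.Helper461.HC.Dist
import Pool.Agent.Helper461.HC.Alg

open Set Topology Filter

namespace Pool.Agent.Helper461.HC

theorem circ_support {η μ : ℝ} {a b : ℝ} (h : a ^ 2 + b ^ 2 = 1) :
    IsAff (fun V : Plane => 1 - a * V 0 - b * V 1) ∧
      ∀ V ∈ OO η μ, 0 < (fun V : Plane => 1 - a * V 0 - b * V 1) V := by
  refine ⟨isAff_lin 1 a b, fun V hV => ?_⟩
  have := norm_OO hV
  simp only
  nlinarith [sq_nonneg (V 0 - a), sq_nonneg (V 1 - b)]

theorem out_of_neg {μ a c : ℝ} (hμ : 0 < μ) (ha : a < 0) :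
    (-1 / 4 + μ) * a < c ∨ c < (-1 / 4 - μ) * a := by
  rcases lt_or_ge ((-1 / 4 + μ) * a) c with h | h
  · exact Or.inl h
  · right; nlinarith

/-- circle points away from the window satisfy the upper constraints -/
theorem circ_T {η μ : ℝ} (hp : Par η μ) {a b : ℝ} (h : a ^ 2 + b ^ 2 = 1) (hb0 : 0 ≤ b)
    (hab : 1 / 20 ≤ |a - 3 / 5|) : ∀ v ∈ Icc (-1 : ℝ) 1, v * a + gp η v * b ≤ 1 := by
  intro v hv
  have hη := hp.hη
  have hη1 := hp.hη1
  have hg := g0_sq hv
  have hb1 : b ≤ 1 := by nlinarith [sq_nonneg a]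
  by_cases hW : v ∈ Icc (3 / 5 - η) (3 / 5 + η)
  · have hdl := dl_le η v
    have hdn := dl_nonneg η v
    have hη4 : η ^ 4 ≤ (1 / 100) ^ 4 := pow_le_pow_left₀ hη.le hη1 4
    have h1 : (1 / 25 : ℝ) ^ 2 ≤ (a - v) ^ 2 := by
      rcases le_abs.mp hab with h | h
      · have : 1 / 25 ≤ a - v := by linarith [hW.2]
        nlinarith
      · have : 1 / 25 ≤ v - a := by linarith [hW.1]
        nlinarith
    have h2 : dl η v * b ≤ dl η v := by nlinarith
    unfold gp
    nlinarith [sq_nonneg (b - g0 v)]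
  · have := dl_zero hη hW
    unfold gp
    rw [this]
    nlinarith [sq_nonneg (a - v), sq_nonneg (b - g0 v)]

theorem slope_data {x y : ℝ} (hq : 9 * x ^ 2 + 16 * y ^ 2 - 40 * y + 16 = 0) (hx : 0 < x)
    (hy : 0 < y) : rr ((y - 4 / 5) / x) = 3 * y / (5 * x) ∧ xx ((y - 4 / 5) / x) = x ∧
      yy ((y - 4 / 5) / x) = y ∧ hh ((y - 4 / 5) / x) = (5 - 4 * y) / 3 := by
  have hr : rr ((y - 4 / 5) / x) = 3 * y / (5 * x) := by
    unfold rr
    rw [show ((y - 4 / 5) / x) ^ 2 + 9 / 25 = (3 * y / (5 * x)) ^ 2 by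
      field_simp
      nlinarith]
    exact Real.sqrt_sq (by positivity)
  have hd : 5 * rr ((y - 4 / 5) / x) - 3 * ((y - 4 / 5) / x) = 12 / (5 * x) := by
    rw [hr]; field_simp; ring
  refine ⟨hr, ?_, ?_, ?_⟩
  · unfold xx; rw [hd]; field_simp
  · unfold yy; rw [hd, hr]; field_simp; ring
  · unfold hh; rw [hd, hr]; field_simp; ring

/-- side function in terms of the dual ratio -/
theorem Aw_DW {η μ : ℝ} (hp : Par η μ) {X : Plane} (hX : X ∈ OO η μ) (hq : OnQ X) (hx : 0 < X 0)
    (hm : (X 1 - 4 / 5) / X 0 ∈ Icc (-1 / 4 - μ) (-1 / 4 + μ)) {v : ℝ}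
    (hv : v ∈ Icc (3 / 5 - η) (3 / 5 + η)) :
    X 0 * Aw η v ((X 1 - 4 / 5) / X 0) = 1 - (5 / 9) * (5 - X 1) / DW η v X := by
  have F := quad_facts hq (norm_OO hX)
  have hy : 0 < X 1 := by linarith [F.y1]
  obtain ⟨_, e1, e2, e3⟩ := slope_data hq hx hy
  obtain ⟨hD, -, -, -⟩ := hp.box v hv _ hm
  obtain ⟨f1, f2⟩ := AA_xx (g0 v + gp η v) v (g0 v) _ hD
  rw [e1, e2, e3] at f2
  unfold Aw
  rw [f2]
  have hη1 := hp.hη1
  have hvI : v ∈ Icc (-1 : ℝ) 1 := ⟨by linarith [hv.1], by linarith [hv.2]⟩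
  have hup := up_pos hX hvI
  have hum := um_pos hX hvI
  have a1 : 1 - v * X 0 + g0 v * X 1 = um v X := by unfold um; ring
  have a2 : 1 - v * X 0 - (g0 v + gp η v - g0 v) * X 1 = up η v X := by unfold up; ring
  rw [a1, a2]
  unfold DW
  field_simp
  ring

theorem D_lt {η μ : ℝ} (hp : Par η μ) {X : Plane} (hX : X ∈ OO η μ) (hq : OnQ X)
    {v : ℝ} (hv : v ∈ Icc (3 / 5 - η) (3 / 5 + η)) (hx : 2 * η ≤ |X 0 - 3 / 5|) :
    DW η v X < ((5 - 4 * X 1) / 3 + X 1) / ((5 - 4 * X 1) / 3 - X 1) := by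
  have hη := hp.hη
  have hη1 := hp.hη1
  have hvI : v ∈ Icc (-1 : ℝ) 1 := ⟨by linarith [hv.1], by linarith [hv.2]⟩
  have hup := up_pos hX hvI
  have F := quad_facts hq (norm_OO hX)
  have hid := cmp_id (δ := dl η v) (y := X 1) F.hsq (g0_sq hvI)
  have hdn := dl_nonneg η v
  have hdl := dl_le η v
  have hy0 : 0 < X 1 := by linarith [F.y1]
  have hsq : η ^ 2 ≤ (X 0 - v) ^ 2 := al_window hη hx hv.1 hv.2
  unfold DW
  rw [div_lt_div_iff₀ hup (by linarith [F.hy])]
  have hpos : 0 < X 1 * ((X 0 - v) ^ 2 + ((5 - 4 * X 1) / 3 - g0 v) ^ 2 -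
      ((5 - 4 * X 1) / 3 + X 1) * dl η v) := by
    apply mul_pos hy0
    have : ((5 - 4 * X 1) / 3 + X 1) * dl η v ≤ 2 * (η ^ 4 / 32) := by
      apply mul_le_mul (by linarith [F.y1]) hdl hdn (by norm_num)
    have h4 : η ^ 4 ≤ η ^ 2 := al_eta4 hη hη1
    have h5 : 0 < η ^ 2 := by positivity
    have h6 := sq_nonneg ((5 - 4 * X 1) / 3 - g0 v)
    linarith
  rw [← hid] at hpos
  have e1 : um v X = 1 - v * X 0 + g0 v * X 1 := by unfold um; ring
  have e2 : up η v X = 1 - v * X 0 - (g0 v + dl η v) * X 1 := by unfold up gp; ring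
  rw [e1, e2]
  linarith

/-- exit point behind the focus -/
theorem exit_back {η μ : ℝ} (hp : Par η μ) {X : Plane} (hX : X ∈ OO η μ) (hq : OnQ X) :
    tau (OO η μ) X FF = (25 - 5 * X 1) / (16 - 5 * X 1) := by
  have hΩ := hilbert_OO hp
  have F := quad_facts hq (norm_OO hX)
  have hμ := hp.hμ
  have hμ1 := hp.hμ1
  set x := X 0 with hxdef
  set y := X 1 with hydef
  have hy1 := F.y1
  have hy2 := F.y2
  have hx1 := F.x1
  have hd : 0 < 16 - 5 * y := by linarith
  set s := (25 - 5 * y) / (16 - 5 * y) with hs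
  have hs0 : 0 < s := div_pos (by linarith) hd
  set a := -(9 * x) / (16 - 5 * y) with ha
  set b := (20 - 13 * y) / (16 - 5 * y) with hb
  have hq' : 9 * x ^ 2 + 16 * y ^ 2 - 40 * y + 16 = 0 := hq
  have hab : a ^ 2 + b ^ 2 = 1 := al_circ' hq' hd
  have hJ : X + s • (FF - X) = pt a b := by
    apply plane_ext
    · simp only [PiLp.add_apply, PiLp.smul_apply, PiLp.sub_apply, smul_eq_mul, pt_zero, FF0]
      rw [← hxdef, hs, ha]
      field_simp
      ring
    · simp only [PiLp.add_apply, PiLp.smul_apply, PiLp.sub_apply, smul_eq_mul, pt_one, FF1]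
      rw [← hydef, hs, hb, eq_div_iff hd.ne', add_mul, div_mul_eq_mul_div, div_mul_cancel₀ _ hd.ne']
      ring
  obtain ⟨hA, hpos⟩ := circ_support (η := η) (μ := μ) hab
  apply tau_eq hΩ hX hA hpos hs0
  · rw [hJ, closure_OO hp]
    have hn : (pt a b) 0 ^ 2 + (pt a b) 1 ^ 2 ≤ 1 := by rw [pt_zero, pt_one]; exact hab.le
    have hb0 : 0 ≤ b := div_nonneg (by linarith) hd.le
    refine ⟨?_, fun v hv => cauchy_le' hn hv, fun z hz => ?_⟩
    · intro v hv
      rw [pt_zero, pt_one]
      apply circ_T hp hab hb0 _ v hv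
      rw [abs_lt] at hx1
      have : a ≤ 11 / 20 := by
        rw [ha, div_le_iff₀ hd]
        linarith [hx1.1]
      rw [le_abs]
      right; linarith
    · apply le_of_lt
      apply out_lt hp (w := z.1) (m := z.2) hz hn
      rw [pt_zero, pt_one]
      have hb45 : 0 < b - 4 / 5 := by
        rw [hb, sub_pos, lt_div_iff₀ hd]
        linarith
      rcases lt_or_ge a 0 with h | h
      · exact out_of_neg hμ h
      · left; exact al_neg_slope hμ1 h hb45
  · rw [hJ]
    simp only [pt_zero, pt_one]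
    exact al_circ hab

theorem exit_front {η μ : ℝ} (hp : Par η μ) {X : Plane} (hX : X ∈ OO η μ) (hq : OnQ X) {w : ℝ}
    (hw : w ∈ Ioo (-1 : ℝ) 1) (hmax : ∀ v ∈ Icc (-1 : ℝ) 1, DW η v X ≤ DW η w X)
    (hge : ((5 - 4 * X 1) / 3 + X 1) / ((5 - 4 * X 1) / 3 - X 1) ≤ DW η w X) :
    0 < 9 * DW η w X - 5 * (5 - X 1) ∧
    tau (OO η μ) FF X = 9 * DW η w X / (9 * DW η w X - 5 * (5 - X 1)) := by
  have hΩ := hilbert_OO hp
  have F := quad_facts hq (norm_OO hX)
  have hμ := hp.hμ
  have hμ1 := hp.hμ1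
  have hη := hp.hη
  have hη1 := hp.hη1
  have hwI := Ioo_subset_Icc_self hw
  set x := X 0 with hxdef
  set y := X 1 with hydef
  set D := DW η w X with hDdef
  have hy1 := F.y1
  have hy2 := F.y2
  have hx1 := F.x1
  have hsq := F.hsq
  have hq' : 9 * x ^ 2 + 16 * y ^ 2 - 40 * y + 16 = 0 := hq
  have h57 : 0 < 5 - 7 * y := by linarith
  have hge2 : (5 - y) / (5 - 7 * y) ≤ D := by
    have : (5 - y) / (5 - 7 * y) = ((5 - 4 * y) / 3 + y) / ((5 - 4 * y) / 3 - y) := by
      rw [div_eq_div_iff (by linarith) (by linarith)]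
      ring
    rw [this]; exact hge
  have hD0 : 0 < D := lt_of_lt_of_le (div_pos (by linarith) h57) hge2
  have hge3 : 5 - y ≤ D * (5 - 7 * y) := by rwa [div_le_iff₀ h57] at hge2
  have hpos1 : 0 < 9 * D - 5 * (5 - y) := al_pos hge3 hD0 hy1 hy2
  refine ⟨hpos1, ?_⟩
  set t := 9 * D / (9 * D - 5 * (5 - y)) with ht
  have ht0 : 0 < t := by positivity
  have htau : t * (1 - (5 / 9) * (5 - y) / D) = 1 := by
    rw [ht]; field_simp
  -- inverse of t
  set τ := 1 - (5 / 9) * (5 - y) / D with hτ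
  have hτJ : (35 * y - 16) / 9 ≤ τ := by
    have : (5 - y) / D ≤ 5 - 7 * y := by rw [div_le_iff₀ hD0]; linarith
    have e : (5 / 9) * (5 - y) / D = (5 / 9) * ((5 - y) / D) := by ring
    rw [hτ, e]; linarith
  have hτ0 : 0 < τ := by
    have : 0 < (35 * y - 16) / 9 := by linarith
    linarith
  set a := t * x with ha
  set b := 4 / 5 + t * (y - 4 / 5) with hb
  have hJ : FF + t • (X - FF) = pt a b := by
    apply plane_ext
    · simp only [PiLp.add_apply, PiLp.smul_apply, PiLp.sub_apply, smul_eq_mul, pt_zero, FF0]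
      rw [← hxdef, sub_zero, zero_add]
    · simp only [PiLp.add_apply, PiLp.smul_apply, PiLp.sub_apply, smul_eq_mul, pt_one, FF1]
      rw [← hydef]
  have hnormid : 1 - a ^ 2 - b ^ 2 = t ^ 2 * (9 / 25) * (τ - (35 * y - 16) / 9) * (τ + (16 - 5 * y) / 9) := by
    have hx2 : x ^ 2 = (-16 * y ^ 2 + 40 * y - 16) / 9 := by linarith
    have e1 : t ^ 2 * (9 / 25) * (τ - (35 * y - 16) / 9) * (τ + (16 - 5 * y) / 9) =
        (9 / 25) * ((t * τ) ^ 2 + t * (t * τ) * ((32 - 40 * y) / 9) -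
          t ^ 2 * ((35 * y - 16) * (16 - 5 * y) / 81)) := by ring
    rw [e1, htau, ha, hb]
    have e2 : (t * x) ^ 2 = t ^ 2 * ((-16 * y ^ 2 + 40 * y - 16) / 9) := by rw [mul_pow, hx2]
    rw [e2]
    ring
  have hnorm : a ^ 2 + b ^ 2 ≤ 1 := by
    have : 0 ≤ t ^ 2 * (9 / 25) * (τ - (35 * y - 16) / 9) * (τ + (16 - 5 * y) / 9) := by
      apply mul_nonneg (mul_nonneg (by positivity) (by linarith))
      linarith
    linarith
  -- the two regimes
  have hinW : w ∈ Icc (3 / 5 - η) (3 / 5 + η) → 0 < x ∧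
      (y - 4 / 5) / x ∈ Icc (-1 / 4 - μ) (-1 / 4 + μ) := by
    intro hwW
    have hxc : |x - 3 / 5| < 2 * η := by
      by_contra hcon
      push Not at hcon
      have := D_lt hp hX hq hwW hcon
      linarith
    have hs := hp.slope x y hq' (by linarith) hxc
    rw [abs_lt] at hxc
    exact ⟨by linarith [hxc.1], hs.1.le, hs.2.le⟩
  have hnotW : w ∉ Icc (3 / 5 - η) (3 / 5 + η) → a ^ 2 + b ^ 2 = 1 ∧ b = (37 * y - 20) / (35 * y - 16) := by
    intro hwW
    obtain ⟨-, -, hDe⟩ := max_out hp hX hq hw hge hwW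
    have hD2 : D * (5 - 7 * y) = 5 - y := by
      have h1 : D = ((5 - 4 * y) / 3 + y) / ((5 - 4 * y) / 3 - y) := hDe
      rw [h1, div_mul_eq_mul_div, div_eq_iff (by linarith)]
      ring
    have hτe : τ = (35 * y - 16) / 9 := by
      have : (5 - y) / D = 5 - 7 * y := by rw [div_eq_iff hD0.ne']; linarith
      have e : (5 / 9) * (5 - y) / D = (5 / 9) * ((5 - y) / D) := by ring
      rw [hτ, e, this]; ring
    constructor
    · have := hnormid
      rw [hτe, sub_self] at this
      linarith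
    · have h3516 : 0 < 35 * y - 16 := by linarith
      have : t = 9 / (35 * y - 16) := by
        rw [hτe] at htau
        field_simp
        linarith
      rw [hb, this]
      field_simp
      ring
  have hn : (pt a b) 0 ^ 2 + (pt a b) 1 ^ 2 ≤ 1 := by rw [pt_zero, pt_one]; exact hnorm
  have hmem : pt a b ∈ CC η μ := by
    by_cases hα : 0 < x ∧ (y - 4 / 5) / x ∈ Icc (-1 / 4 - μ) (-1 / 4 + μ)
    · obtain ⟨hx0, hm⟩ := hα
      set m := (y - 4 / 5) / x with hmdef
      have hym : y - 4 / 5 = m * x := by rw [hmdef]; field_simp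
      have ha0 : 0 < a := by positivity
      have hbm : b = 4 / 5 + m * a := by rw [hb, hym, ha]; ring
      have ha1 : a ≤ 81 / 100 := al_81 ha0 hnorm hbm (by linarith [hm.1])
      refine ⟨?_, fun v hv => cauchy_le' hn hv, fun z hz => ?_⟩
      · intro v hv
        by_cases hW : v ∈ Icc (3 / 5 - η) (3 / 5 + η)
        · rw [pt_zero, pt_one]
          have hg := g0_sq hv
          have hgn := g0_nonneg v
          have hdn := dl_nonneg η v
          have hdl := dl_le η v
          have hη4 : η ^ 4 ≤ (1 / 100) ^ 4 := pow_le_pow_left₀ hη.le hη1 4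
          have hv1 : 59 / 100 ≤ v := by linarith [hW.1]
          have hv2 : v ≤ 61 / 100 := by linarith [hW.2]
          obtain ⟨hg1, hg2⟩ := al_g0 hg hgn hv1 hv2
          have hgp1 : 79 / 100 ≤ gp η v := by unfold gp; linarith
          have hgp2 : gp η v ≤ 808 / 1000 := by unfold gp; linarith
          exact al_T ha0 ha1 hbm (by linarith [hm.2]) hv2 hgp1 hgp2
        · have := cauchy_le hn hv
          have e : gp η v = g0 v := by unfold gp; rw [dl_zero hη hW]; ring
          rw [e]; exact this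
      · obtain ⟨v, m'⟩ := z
        obtain ⟨⟨hv, hm'⟩, hA⟩ := id hz
        simp only at hv hm' hA ⊢
        have hvI : v ∈ Icc (-1 : ℝ) 1 := ⟨by linarith [hv.1], by linarith [hv.2]⟩
        have h1 := Aw_DW hp hX hq hx0 hm hv
        rw [← hxdef, ← hydef, ← hmdef] at h1
        have hDv := hmax v hvI
        have hDv0 : 0 < DW η v X := div_pos (um_pos hX hvI) (up_pos hX hvI)
        have h2 : x * Aw η v m ≤ τ := by
          rw [h1, hτ]
          have : (5 / 9) * (5 - y) / D ≤ (5 / 9) * (5 - y) / DW η v X := by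
            apply div_le_div_of_nonneg_left (by linarith) hDv0 hDv
          linarith
        have h3 : a * Aw η v m ≤ 1 := by
          rw [ha, ← htau, mul_assoc]
          exact mul_le_mul_of_nonneg_left h2 ht0.le
        have h4 : Aw η v m' + A1w η v m' * (m - m') ≤ Aw η v m := by
          by_cases hmm : m = m'
          · rw [hmm]; linarith
          · exact (Aw_tangent hp hv hm' hm hmm).le
        unfold LS
        rw [pt_zero, pt_one, hbm]
        have : (Aw η v m' - m' * A1w η v m') * a + A1w η v m' * (4 / 5 + m * a - 4 / 5) =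
            a * (Aw η v m' + A1w η v m' * (m - m')) := by ring
        rw [this]
        exact al_S ha0 h4 h3
    · have hwn : w ∉ Icc (3 / 5 - η) (3 / 5 + η) := fun h => hα (hinW h)
      obtain ⟨hab, hbe⟩ := hnotW hwn
      have h3516 : 0 < 35 * y - 16 := by linarith
      have hb57 : b < 5 / 7 := by
        rw [hbe, div_lt_iff₀ h3516]; linarith
      refine ⟨?_, fun v hv => cauchy_le' hn hv, fun z hz => ?_⟩
      · intro v hv
        rw [pt_zero, pt_one]
        rcases lt_or_ge b 0 with hb0 | hb0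
        · exact al_neg_b hv.1 hv.2 (al_abs1 hnorm) (gp_nonneg η v) hb0
        · exact circ_T hp hab hb0 (al_b57 hab hb57 hb0) v hv
      · apply le_of_lt
        apply out_lt hp (w := z.1) (m := z.2) hz hn
        rw [pt_zero, pt_one]
        have hbt : b - 4 / 5 = t * (y - 4 / 5) := by rw [hb]; ring
        have hbneg : b - 4 / 5 < 0 := by rw [hbt]; exact al_mul_neg ht0 (by linarith)
        rcases lt_trichotomy x 0 with h | h | h
        · have : a < 0 := by rw [ha]; exact al_mul_neg ht0 h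
          exact out_of_neg hμ this
        · right
          rw [ha, h]; linarith
        · rw [not_and_or] at hα
          rcases hα with hα | hα
          · exact absurd h hα
          · rw [mem_Icc, not_and_or] at hα
            rcases hα with hα | hα <;> push Not at hα
            · right
              rw [hbt, ha]
              rw [div_lt_iff₀ h] at hα
              exact al_slope1 ht0 hα
            · left
              rw [hbt, ha]
              rw [lt_div_iff₀ h] at hα
              exact al_slope2 ht0 hα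
  by_cases hwW : w ∈ Icc (3 / 5 - η) (3 / 5 + η)
  · obtain ⟨hx0, hm⟩ := hinW hwW
    set m := (y - 4 / 5) / x with hmdef
    have hym : y - 4 / 5 = m * x := by rw [hmdef]; field_simp
    have h1 := Aw_DW hp hX hq hx0 hm hwW
    rw [← hxdef, ← hydef, ← hmdef, ← hDdef] at h1
    have hKS : (w, m) ∈ KS η μ := by
      refine ⟨⟨hwW, hm⟩, ?_⟩
      show p0 m ≤ Aw η w m
      obtain ⟨_, e1, e2, e3⟩ := slope_data hq' hx0 (by linarith : 0 < y)
      have h2 := p0_xx m
      rw [e1, e2, e3] at h2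
      have h3 : x * p0 m ≤ x * Aw η w m := by
        rw [h2, h1]
        have : (5 - y) / D ≤ 5 - 7 * y := by rw [div_le_iff₀ hD0]; linarith
        have e : (5 / 9) * (5 - y) / D = (5 / 9) * ((5 - y) / D) := by ring
        rw [e]; linarith
      exact le_of_mul_le_mul_left h3 hx0
    have hbm : b = 4 / 5 + m * a := by rw [hb, hym, ha]; ring
    have haff : IsAff (fun V : Plane => (1 + (4 / 5) * A1w η w m) -
        (Aw η w m - m * A1w η w m) * V 0 - A1w η w m * V 1) := isAff_lin _ _ _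
    apply tau_eq hΩ (FF_mem hp) haff _ ht0
    · rw [hJ, closure_OO hp]; exact hmem
    · rw [hJ]
      simp only [pt_zero, pt_one]
      rw [hbm]
      have : 1 + 4 / 5 * A1w η w m - (Aw η w m - m * A1w η w m) * a - A1w η w m * (4 / 5 + m * a) =
          1 - a * Aw η w m := by ring
      rw [this, ha, mul_assoc, h1]
      linarith
    · intro V hV
      have := hV.2.2 (w, m) hKS
      unfold LS at this
      simp only at this ⊢
      linarith
  · obtain ⟨hab, -⟩ := hnotW hwW
    obtain ⟨hA, hpos⟩ := circ_support (η := η) (μ := μ) hab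
    apply tau_eq hΩ (FF_mem hp) hA hpos ht0
    · rw [hJ, closure_OO hp]; exact hmem
    · rw [hJ]
      simp only [pt_zero, pt_one]
      exact al_circ hab

theorem dist_focus {η μ : ℝ} (hp : Par η μ) {X : Plane} (hX : X ∈ OO η μ) (hq : OnQ X) {w : ℝ}
    (hw : w ∈ Ioo (-1 : ℝ) 1) (hmax : ∀ v ∈ Icc (-1 : ℝ) 1, DW η v X ≤ DW η w X)
    (hge : ((5 - 4 * X 1) / 3 + X 1) / ((5 - 4 * X 1) / 3 - X 1) ≤ DW η w X) :
    2 * hdist (OO η μ) FF X = Real.log (DW η w X) := by
  have hΩ := hilbert_OO hp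
  have F := quad_facts hq (norm_OO hX)
  have hwI := Ioo_subset_Icc_self hw
  obtain ⟨h1, h2⟩ := exit_front hp hX hq hw hmax hge
  have h3 := exit_back hp hX hq
  have hD : 0 < DW η w X := div_pos (um_pos hX hwI) (up_pos hX hwI)
  have hy1 := F.y1
  have hy2 := F.y2
  rw [hdist_eq hΩ (FF_mem hp) hX]
  unfold funk
  rw [h2, h3]
  set D := DW η w X
  set y := X 1
  have hd : 0 < 16 - 5 * y := by linarith
  have e1 : 9 * D / (9 * D - 5 * (5 - y)) / (9 * D / (9 * D - 5 * (5 - y)) - 1) = 9 * D / (5 * (5 - y)) := by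
    have : 9 * D / (9 * D - 5 * (5 - y)) - 1 = 5 * (5 - y) / (9 * D - 5 * (5 - y)) := by
      field_simp; ring
    rw [this, div_div_div_cancel_right₀ h1.ne']
  have e2 : (25 - 5 * y) / (16 - 5 * y) / ((25 - 5 * y) / (16 - 5 * y) - 1) = (25 - 5 * y) / 9 := by
    have : (25 - 5 * y) / (16 - 5 * y) - 1 = 9 / (16 - 5 * y) := by
      field_simp; ring
    rw [this, div_div_div_cancel_right₀ hd.ne']
  rw [e1, e2, mul_div_cancel₀ _ (two_ne_zero), ← Real.log_mul]
  · congr 1
    have : 5 - y ≠ 0 := by linarith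
    field_simp
    ring
  · exact (div_pos (by linarith) (by linarith)).ne'
  · exact (div_pos (by linarith) (by norm_num)).ne'

end Pool.Agent.Helper461.HC
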