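import Mathlib
import Pool.Agent.Helper461.HC.Foc

open Set Topology Filter

namespace Pool.Agent.Helper461.HC

/-- the leading line -/
def LL (η μ : ℝ) : Set Plane := {V | V ∈ OO η μ ∧ V 1 = 0}

theorem simple_mem {η μ : ℝ} (hp : Par η μ) {a b : ℝ} (ha : |a| ≤ 1 / 2) (hb0 : 0 ≤ b) (hb : b ≤ 1 / 2)
    (hab : |a| + 2 * b ≤ 1) : pt a b ∈ OO η μ := by
  have hμ := hp.hμ
  have hμ1 := hp.hμ1
  rw [abs_le] at ha
  have hab' := hab
  refine ⟨fun w hw => ?_, fun w hw => ?_, fun z hz => ?_⟩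
  · have h1 := gp_le hp.hη hp.hη1 w
    have h2 := gp_nonneg η w
    rw [pt_zero, pt_one]
    have h3 : w * a ≤ |a| := by
      have : |w * a| ≤ 1 * |a| := by
        rw [abs_mul]
        exact mul_le_mul_of_nonneg_right (abs_le.mpr ⟨hw.1, hw.2⟩) (abs_nonneg _)
      linarith [le_abs_self (w * a)]
    have h4 : gp η w * b ≤ (1 + 1 / 32) * b := mul_le_mul_of_nonneg_right h1 hb0
    rcases eq_or_lt_of_le hb0 with h | h
    · rw [← h] at h4 hab ⊢
      have : |a| ≤ 1 / 2 := abs_le.mpr ha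
      linarith
    · linarith
  · have h2 := g0_nonneg w
    rw [pt_zero, pt_one]
    have h3 : w * a ≤ |a| := by
      have : |w * a| ≤ 1 * |a| := by
        rw [abs_mul]
        exact mul_le_mul_of_nonneg_right (abs_le.mpr ⟨hw.1, hw.2⟩) (abs_nonneg _)
      linarith [le_abs_self (w * a)]
    have h4 : 0 ≤ g0 w * b := mul_nonneg h2 hb0
    have : |a| ≤ 1 / 2 := abs_le.mpr ha
    linarith
  · apply out_lt hp (w := z.1) (m := z.2) hz
    · rw [pt_zero, pt_one]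
      have h1 : a ^ 2 ≤ (1 / 2) ^ 2 := sq_le_sq' ha.1 ha.2
      have h2 : b ^ 2 ≤ (1 / 2) ^ 2 := pow_le_pow_left₀ hb0 hb 2
      linarith
    · right
      rw [pt_zero, pt_one]
      nlinarith [ha.1, ha.2]

noncomputable def sg (V : Plane) : ℝ := 4 * V 1 + 3 * Real.sqrt (1 - V 0 ^ 2)

theorem cont_sg : Continuous sg := by unfold sg; fun_prop

theorem onQ_iff {η μ : ℝ} {V : Plane} (hV : V ∈ OO η μ) : OnQ V ↔ sg V = 5 := by
  have hn := norm_OO hV
  have hs : 0 ≤ 1 - V 0 ^ 2 := by nlinarith [sq_nonneg (V 1)]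
  have hs2 := Real.sq_sqrt hs
  have hs0 := Real.sqrt_nonneg (1 - V 0 ^ 2)
  have hy : V 1 < 1 := by nlinarith [sq_nonneg (V 0)]
  unfold OnQ sg
  set r := Real.sqrt (1 - V 0 ^ 2)
  set x := V 0
  set y := V 1
  constructor
  · intro h
    have h1 : (3 * r) ^ 2 = (5 - 4 * y) ^ 2 := by nlinarith
    have h2 : 3 * r = 5 - 4 * y := by
      have := abs_eq_abs.mpr (sq_eq_sq_iff_eq_or_eq_neg.mp h1)
      rw [abs_of_nonneg (by linarith), abs_of_pos (by linarith)] at this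
      exact this
    linarith
  · intro h
    have h1 : 3 * r = 5 - 4 * y := by linarith
    have h2 : (3 * r) ^ 2 = (5 - 4 * y) ^ 2 := by rw [h1]
    nlinarith

theorem sg_focus : 5 < sg FF := by
  unfold sg
  rw [FF0, FF1]
  norm_num

theorem sg_line {η μ : ℝ} {V : Plane} (hV : V ∈ LL η μ) : sg V < 5 := by
  unfold sg
  rw [hV.2]
  have : Real.sqrt (1 - V 0 ^ 2) ≤ 1 := by
    have := g0_le_one (V 0)
    unfold g0 at this
    exact this
  linarith

theorem sg_seg {V W : Plane} (hV : V 0 ^ 2 ≤ 1) (h1 : 5 < sg V) (hW : W ∈ segment ℝ V FF) : 5 < sg W := by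
  obtain ⟨a, b, ha, hb, hab, rfl⟩ := hW
  have hF := sg_focus
  unfold sg at h1 ⊢
  simp only [PiLp.add_apply, PiLp.smul_apply, smul_eq_mul, FF0, FF1]
  have hs : 0 ≤ 1 - V 0 ^ 2 := by linarith
  have hs2 := Real.sq_sqrt hs
  have hs0 := Real.sqrt_nonneg (1 - V 0 ^ 2)
  have hs1 : Real.sqrt (1 - V 0 ^ 2) ≤ 1 := by
    have := g0_le_one (V 0)
    unfold g0 at this
    exact this
  set r := Real.sqrt (1 - V 0 ^ 2)
  have h2 : a * r + b ≤ Real.sqrt (1 - (a * V 0 + b * 0) ^ 2) := by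
    apply Real.le_sqrt_of_sq_le
    have hb' : b = 1 - a := by linarith
    subst hb'
    have : 1 - (a * V 0 + (1 - a) * 0) ^ 2 = 1 - a ^ 2 * V 0 ^ 2 := by ring
    rw [this]
    have e : V 0 ^ 2 = 1 - r ^ 2 := by linarith
    rw [e]
    nlinarith [mul_nonneg (mul_nonneg ha hb) (sub_nonneg.mpr hs1)]
  rcases eq_or_lt_of_le ha with h | h
  · have hb1 : b = 1 := by linarith
    rw [← h, hb1]
    norm_num
  · have h3 : a * 5 < a * (4 * V 1 + 3 * r) := mul_lt_mul_of_pos_left h1 h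
    linarith

theorem ivt_seg {V W : Plane} (h1 : 5 < sg V) (h2 : sg W < 5) : ∃ X ∈ segment ℝ V W, sg X = 5 := by
  have hc : Continuous (fun t : ℝ => sg (V + t • (W - V))) := cont_sg.comp (by fun_prop)
  have := intermediate_value_Icc' (zero_le_one' ℝ) hc.continuousOn
  have h5 : (5 : ℝ) ∈ Icc (sg (V + (1:ℝ) • (W - V))) (sg (V + (0:ℝ) • (W - V))) := by
    rw [one_smul, zero_smul, add_zero, add_sub_cancel]
    exact ⟨h2.le, h1.le⟩
  obtain ⟨t, ht, he⟩ := this h5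
  exact ⟨V + t • (W - V), by rw [segment_eq_image']; exact ⟨t, ht, rfl⟩, he⟩

theorem lineDist_min {η μ : ℝ} (hp : Par η μ) {X : Plane} (hX : X ∈ OO η μ) :
    ∃ Y ∈ LL η μ, lineDist (OO η μ) (LL η μ) X = hdist (OO η μ) X Y := by
  have hΩ := hilbert_OO hp
  have h0 : pt 0 0 ∈ OO η μ := simple_mem hp (by norm_num) le_rfl (by norm_num) (by norm_num)
  have hK : IsClosed {V : Plane | V 1 = 0} := isClosed_eq cont1 continuous_const
  obtain ⟨Y, hY, hYK, hmin⟩ := exists_min hΩ hX hK h0 (by show (pt 0 0) 1 = 0; rw [pt_one])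
  refine ⟨Y, ⟨hY, hYK⟩, ?_⟩
  have : IsLeast ((fun Y => hdist (OO η μ) X Y) '' (LL η μ)) (hdist (OO η μ) X Y) := by
    refine ⟨⟨Y, ⟨hY, hYK⟩, rfl⟩, ?_⟩
    rintro _ ⟨Z, ⟨hZ, hZK⟩, rfl⟩
    exact hmin Z hZ hZK
  exact this.csInf_eq

theorem lineDist_le {η μ : ℝ} (hp : Par η μ) {X Z : Plane} (hX : X ∈ OO η μ) (hZ : Z ∈ LL η μ) :
    lineDist (OO η μ) (LL η μ) X ≤ hdist (OO η μ) X Z := by
  have hΩ := hilbert_OO hp
  apply csInf_le
  · refine ⟨0, ?_⟩
    rintro _ ⟨Y, hY, rfl⟩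
    exact hdist_nonneg hΩ hX hY.1
  · exact ⟨Z, hZ, rfl⟩

/-- on the quadric the two distances agree -/
theorem on_eq {η μ : ℝ} (hp : Par η μ) {X : Plane} (hX : X ∈ OO η μ) (hq : OnQ X) :
    (∀ Z ∈ LL η μ, hdist (OO η μ) FF X ≤ hdist (OO η μ) X Z) ∧
      ∃ Y ∈ LL η μ, hdist (OO η μ) X Y = hdist (OO η μ) FF X := by
  obtain ⟨w, hw, hmax, hge, h1, Y, hY, hY1, h2⟩ := dist_line hp hX hq
  have h3 := dist_focus hp hX hq hw hmax hge
  refine ⟨fun Z hZ => ?_, Y, ⟨hY, hY1⟩, by linarith⟩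
  have := h1 Z hZ.1 hZ.2
  linarith

theorem above_lt {η μ : ℝ} (hp : Par η μ) {X : Plane} (hX : X ∈ OO η μ) (h : 5 < sg X) :
    hdist (OO η μ) FF X < lineDist (OO η μ) (LL η μ) X := by
  have hΩ := hilbert_OO hp
  obtain ⟨Y, hY, he⟩ := lineDist_min hp hX
  obtain ⟨X1, hX1, hs⟩ := ivt_seg h (sg_line hY)
  have hX1Ω : X1 ∈ OO η μ := (convex_OO η μ).segment_subset hX hY.1 hX1
  have hq := (onQ_iff hX1Ω).mpr hs
  obtain ⟨h1, -⟩ := on_eq hp hX1Ω hq
  have h2 := h1 Y hY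
  have h3 := hdist_additive hΩ hX hX1Ω hY.1 hX1
  have hnot : X1 ∉ segment ℝ X FF := by
    intro hcon
    have := sg_seg (by have := norm_OO hX; nlinarith [sq_nonneg (X 1)]) h hcon
    linarith
  have h4 := hdist_strict hΩ hX hX1Ω (FF_mem hp) hnot
  rw [hdist_comm hΩ hX (FF_mem hp), hdist_comm hΩ hX1Ω (FF_mem hp)] at h4
  rw [he, h3]
  linarith

theorem below_lt {η μ : ℝ} (hp : Par η μ) {X : Plane} (hX : X ∈ OO η μ) (h : sg X < 5) :
    lineDist (OO η μ) (LL η μ) X < hdist (OO η μ) FF X := by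
  have hΩ := hilbert_OO hp
  obtain ⟨X0, hX0, hs⟩ := ivt_seg sg_focus h
  have hX0Ω : X0 ∈ OO η μ := (convex_OO η μ).segment_subset (FF_mem hp) hX hX0
  have hq := (onQ_iff hX0Ω).mpr hs
  obtain ⟨-, Y, hY, he⟩ := on_eq hp hX0Ω hq
  have F := quad_facts hq (norm_OO hX0Ω)
  have hnot : X0 ∉ segment ℝ X Y := by
    rintro ⟨a, b, ha, hb, hab, hcon⟩
    obtain ⟨c, d, hc, hd, hcd, hcon2⟩ := hX0
    have e1 : X0 1 = a * X 1 := by
      rw [← hcon]
      simp only [PiLp.add_apply, PiLp.smul_apply, smul_eq_mul, hY.2]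
      ring
    have e2 : X0 1 = c * (4 / 5) + d * X 1 := by
      rw [← hcon2]
      simp only [PiLp.add_apply, PiLp.smul_apply, smul_eq_mul, FF1]
    have hy1 := F.y1
    have hy2 := F.y2
    have ha0 : 0 < a := by
      rcases eq_or_lt_of_le ha with h | h
      · rw [← h] at e1; linarith
      · exact h
    have hXpos : 0 < X 1 := by
      by_contra hcon; push Not at hcon; nlinarith
    have hle : X0 1 ≤ X 1 := by rw [e1]; nlinarith
    have hc0 : c = 0 := by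
      by_contra hne
      have hcpos : 0 < c := lt_of_le_of_ne hc (Ne.symm hne)
      have hd' : d = 1 - c := by linarith
      rw [hd'] at e2
      have : X 1 < 4 / 5 ∨ 4 / 5 ≤ X 1 := lt_or_ge _ _
      rcases this with h5 | h5
      · nlinarith
      · nlinarith
    have hd1 : d = 1 := by linarith
    rw [hc0, hd1] at hcon2
    simp only [zero_smul, one_smul, zero_add] at hcon2
    rw [hcon2] at h
    linarith
  have h1 := hdist_strict hΩ hX hX0Ω hY.1 hnot
  have h2 := hdist_additive hΩ (FF_mem hp) hX0Ω hX hX0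
  have h3 := lineDist_le hp hX hY
  rw [hdist_comm hΩ hX hX0Ω] at h1
  linarith

theorem conic_iff {η μ : ℝ} (hp : Par η μ) {X : Plane} (hX : X ∈ OO η μ) :
    lineDist (OO η μ) (LL η μ) X = hdist (OO η μ) FF X ↔ OnQ X := by
  constructor
  · intro he
    rw [onQ_iff hX]
    rcases lt_trichotomy (sg X) 5 with h | h | h
    · have := below_lt hp hX h; linarith
    · exact h
    · have := above_lt hp hX h; linarith
  · intro hq
    obtain ⟨h1, Y, hY, he⟩ := on_eq hp hX hq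
    obtain ⟨Y', hY', he'⟩ := lineDist_min hp hX
    have h2 := lineDist_le hp hX hY
    have h3 := h1 Y' hY'
    linarith

theorem focus_pos {η μ : ℝ} (hp : Par η μ) : 0 < lineDist (OO η μ) (LL η μ) FF := by
  obtain ⟨Y, hY, he⟩ := lineDist_min hp (FF_mem hp)
  rw [he]
  apply hdist_pos (hilbert_OO hp) (FF_mem hp) hY.1
  rintro h
  have := hY.2
  rw [← h, FF1] at this
  norm_num at this

theorem line_eq {η μ : ℝ} (hp : Par η μ) : ∃ A ∈ OO η μ, ∃ B ∈ OO η μ, A ≠ B ∧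
    LL η μ = OO η μ ∩ {P | ∃ t : ℝ, P = A + t • (B - A)} := by
  refine ⟨pt (-(1 / 2)) 0, simple_mem hp (by rw [abs_neg, abs_of_pos] <;> norm_num) le_rfl (by norm_num)
    (by rw [abs_neg, abs_of_pos] <;> norm_num), pt (1 / 2) 0,
    simple_mem hp (by rw [abs_of_pos]; norm_num) le_rfl (by norm_num)
    (by rw [abs_of_pos] <;> norm_num), ?_, ?_⟩
  · intro h
    have := congrArg (fun V : Plane => V 0) h
    simp only [pt_zero] at this
    norm_num at this
  · ext V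
    constructor
    · rintro ⟨h1, h2⟩
      refine ⟨h1, V 0 + 1 / 2, ?_⟩
      apply plane_ext
      · simp only [PiLp.add_apply, PiLp.smul_apply, PiLp.sub_apply, smul_eq_mul, pt_zero]
        ring
      · simp only [PiLp.add_apply, PiLp.smul_apply, PiLp.sub_apply, smul_eq_mul, pt_one]
        rw [h2]; ring
    · rintro ⟨h1, t, ht⟩
      refine ⟨h1, ?_⟩
      rw [ht]
      simp only [PiLp.add_apply, PiLp.smul_apply, PiLp.sub_apply, smul_eq_mul, pt_one]
      ring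

end Pool.Agent.Helper461.HC
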